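import Mathlib

/-!
# A finite basis for the `ℵ₁`-dense LOTS of countable character: the tree orders
-/

namespace Pool.Agent.H458R4.Basis

open Cardinal Set

/-- A LOTS embedding: an injective, order preserving map which is continuous for the open interval
topologies. -/
def IsLOTSEmbedding {A B : Type} [LinearOrder A] [LinearOrder B] (f : A → B) : Prop :=
  Function.Injective f ∧ (∀ x y, x ≤ y → f x ≤ f y) ∧
    @Continuous A B (Preorder.topology A) (Preorder.topology B) f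

/-- The class of the `ℵ₁`-dense linear orders in which each point has countable cofinality and
countable coinitiality, wherever these are defined. (In such an order each point which is not the
least point is the supremum of an increasing sequence, and similarly for the infima.) -/
structure InC (L : Type) [LinearOrder L] : Prop where
  nontrivial : ∃ a b : L, a < b
  dense : ∀ a b : L, a < b → #(Ioo a b) = ℵ₁
  cofinality : ∀ x : L, (∃ y, y < x) → ∃ f : ℕ → L, StrictMono f ∧ IsLUB (range f) x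
  coinitiality : ∀ x : L, (∃ y, x < y) → ∃ f : ℕ → L, StrictAnti f ∧ IsGLB (range f) x

theorem InC.exists_between {L : Type} [LinearOrder L] (hL : InC L) {a b : L} (h : a < b) :
    ∃ c, a < c ∧ c < b := by
  have h1 : #(Ioo a b) ≠ 0 := by
    rw [hL.dense a b h]
    exact (aleph0_pos.trans aleph0_lt_aleph_one).ne'
  obtain ⟨c⟩ := mk_ne_zero_iff.1 h1
  exact ⟨c.1, c.2.1, c.2.2⟩

theorem isLOTSEmbedding_of {A B : Type} [LinearOrder A] [LinearOrder B] {f : A → B}
    (hf : StrictMono f) (h1 : ∀ t y, y < f t → ∃ s < t, y ≤ f s)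
    (h2 : ∀ t y, f t < y → ∃ s, t < s ∧ f s ≤ y) : IsLOTSEmbedding f := by
  refine ⟨hf.injective, fun x y h => hf.monotone h, ?_⟩
  let : TopologicalSpace A := Preorder.topology A
  have : OrderTopology A := ⟨rfl⟩
  refine continuous_generateFrom_iff.2 ?_
  rintro s ⟨y, rfl | rfl⟩
  · have : f ⁻¹' Ioi y = ⋃ s ∈ {s | y ≤ f s}, Ioi s := by
      ext t
      simp only [mem_preimage, mem_Ioi, mem_iUnion, exists_prop, Set.mem_ofPred_eq]
      constructor
      · intro h
        obtain ⟨s, hs, hs'⟩ := h1 t y h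
        exact ⟨s, hs', hs⟩
      · rintro ⟨s, hs, hst⟩
        exact hs.trans_lt (hf hst)
    rw [this]
    exact isOpen_biUnion fun s _ => isOpen_Ioi
  · have : f ⁻¹' Iio y = ⋃ s ∈ {s | f s ≤ y}, Iio s := by
      ext t
      simp only [mem_preimage, mem_Iio, mem_iUnion, exists_prop, Set.mem_ofPred_eq]
      constructor
      · intro h
        obtain ⟨s, hs, hs'⟩ := h2 t y h
        exact ⟨s, hs', hs⟩
      · rintro ⟨s, hs, hst⟩
        exact (hf hst).trans_le hs
    rw [this]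
    exact isOpen_biUnion fun s _ => isOpen_Iio

/-! ### The index order -/

/-- The order `ω × J + 1 + ω* × J` (lexicographic products). -/
abbrev Idx (J : Type) : Type := (ℕ ×ₗ J) ⊕ₗ (Unit ⊕ₗ (ℕᵒᵈ ×ₗ J))

section Idx

variable {J : Type} [LinearOrder J]

/-- the elements of the left part -/
def lf (n : ℕ) (j : J) : Idx J := toLex (Sum.inl (toLex (n, j)))

/-- the middle element -/
def mid : Idx J := toLex (Sum.inr (toLex (Sum.inl ())))

/-- the elements of the right part -/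
def rt (n : ℕ) (j : J) : Idx J := toLex (Sum.inr (toLex (Sum.inr (toLex (OrderDual.toDual n, j)))))

theorem idx_cases (i : Idx J) : (∃ n j, i = lf n j) ∨ i = mid ∨ ∃ n j, i = rt n j := by
  rcases h : ofLex i with p | q
  · left
    exact ⟨(ofLex p).1, (ofLex p).2, by rw [← toLex_ofLex i, h]; rfl⟩
  · right
    rcases h' : ofLex q with u | r
    · left
      rw [← toLex_ofLex i, h, ← toLex_ofLex q, h']
      rfl
    · right
      refine ⟨OrderDual.ofDual (ofLex r).1, (ofLex r).2, ?_⟩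
      rw [← toLex_ofLex i, h, ← toLex_ofLex q, h']
      rfl

theorem lf_lt_lf {n n' : ℕ} {j j' : J} : lf n j < lf n' j' ↔ n < n' ∨ n = n' ∧ j < j' := by
  rw [lf, lf, Sum.Lex.inl_lt_inl_iff, Prod.Lex.toLex_lt_toLex]

theorem lf_lt_mid (n : ℕ) (j : J) : lf n j < mid := Sum.Lex.inl_lt_inr _ _

theorem mid_lt_rt (n : ℕ) (j : J) : mid < rt n j := by
  rw [mid, rt, Sum.Lex.inr_lt_inr_iff]
  exact Sum.Lex.inl_lt_inr _ _

theorem rt_lt_rt {n n' : ℕ} {j j' : J} : rt n j < rt n' j' ↔ n' < n ∨ n = n' ∧ j < j' := by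
  rw [rt, rt, Sum.Lex.inr_lt_inr_iff, Sum.Lex.inr_lt_inr_iff, Prod.Lex.toLex_lt_toLex]
  simp only [OrderDual.toDual_lt_toDual, OrderDual.toDual_inj]

theorem lf_ne_mid (n : ℕ) (j : J) : lf n j ≠ mid := (lf_lt_mid n j).ne

theorem rt_ne_mid (n : ℕ) (j : J) : rt n j ≠ mid := (mid_lt_rt n j).ne'

theorem eq_lf {i : Idx J} (h : i < mid) : ∃ n j, i = lf n j := by
  rcases idx_cases i with h' | rfl | ⟨n, j, rfl⟩
  · exact h'
  · exact absurd h (lt_irrefl _)
  · exact absurd h (not_lt.2 (mid_lt_rt n j).le)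

theorem eq_rt {i : Idx J} (h : mid < i) : ∃ n j, i = rt n j := by
  rcases idx_cases i with ⟨n, j, rfl⟩ | rfl | h'
  · exact absurd h (not_lt.2 (lf_lt_mid n j).le)
  · exact absurd h (lt_irrefl _)
  · exact h'

end Idx

/-! ### The tree order -/

/-- The finite sequences of elements of `Idx J` different from `mid`, represented as the infinite
sequences obtained by adding `mid`s at the end. -/
def T (J : Type) [LinearOrder J] : Type :=
  {t : ℕ → Idx J // ∃ m, (∀ k < m, t k ≠ mid) ∧ ∀ k, m ≤ k → t k = mid}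

section T

variable {J : Type} [LinearOrder J]

/-- The lexicographic order. -/
noncomputable instance : LinearOrder (T J) :=
  LinearOrder.lift' (fun t : T J => (toLex t.1 : Lex (ℕ → Idx J)))
    (fun _ _ h => Subtype.ext (toLex.injective h))

theorem T.lt_iff {s t : T J} : s < t ↔ ∃ k, (∀ j < k, s.1 j = t.1 j) ∧ s.1 k < t.1 k := Iff.rfl

/-- the length -/
noncomputable def T.len (t : T J) : ℕ := t.2.choose

theorem T.ne_mid (t : T J) {k : ℕ} (hk : k < t.len) : t.1 k ≠ mid := t.2.choose_spec.1 k hk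

theorem T.eq_mid (t : T J) {k : ℕ} (hk : t.len ≤ k) : t.1 k = mid := t.2.choose_spec.2 k hk

theorem T.len_le (t : T J) {k : ℕ} (h : t.1 k = mid) : t.len ≤ k := by
  by_contra hcon
  exact t.ne_mid (not_le.1 hcon) h

theorem T.lt_len (t : T J) {k : ℕ} (h : t.1 k ≠ mid) : k < t.len := by
  by_contra hcon
  exact h (t.eq_mid (not_lt.1 hcon))

/-- adding an element at the end -/
noncomputable def T.snoc (t : T J) (i : Idx J) (hi : i ≠ mid) : T J :=
  ⟨Function.update t.1 t.len i, t.len + 1, fun k hk => by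
    rcases Nat.lt_succ_iff_lt_or_eq.1 hk with h | rfl
    · rw [Function.update_of_ne h.ne]
      exact t.ne_mid h
    · rw [Function.update_self]
      exact hi, fun k hk => by
    rw [Function.update_of_ne (by omega)]
    exact t.eq_mid (by omega)⟩

theorem T.snoc_lt_len (t : T J) {i : Idx J} (hi : i ≠ mid) {k : ℕ} (hk : k < t.len) :
    (t.snoc i hi).1 k = t.1 k := Function.update_of_ne hk.ne _ _

theorem T.snoc_len (t : T J) {i : Idx J} (hi : i ≠ mid) : (t.snoc i hi).1 t.len = i :=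
  Function.update_self _ _ _

theorem T.snoc_lt (t : T J) {i : Idx J} (hi : i < mid) : t.snoc i hi.ne < t :=
  T.lt_iff.2 ⟨t.len, fun _ hj => t.snoc_lt_len _ hj, by
    show (t.snoc i hi.ne).1 t.len < t.1 t.len
    rw [t.snoc_len, t.eq_mid le_rfl]
    exact hi⟩

theorem T.lt_snoc (t : T J) {i : Idx J} (hi : mid < i) : t < t.snoc i hi.ne' :=
  T.lt_iff.2 ⟨t.len, fun _ hj => (t.snoc_lt_len _ hj).symm, by
    show t.1 t.len < (t.snoc i hi.ne').1 t.len
    rw [t.snoc_len, t.eq_mid le_rfl]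
    exact hi⟩

theorem T.snoc_lt_snoc (t : T J) {i i' : Idx J} (hi : i ≠ mid) (hi' : i' ≠ mid) (h : i < i') :
    t.snoc i hi < t.snoc i' hi' :=
  T.lt_iff.2 ⟨t.len, fun _ hj => (t.snoc_lt_len _ hj).trans (t.snoc_lt_len _ hj).symm, by
    show (t.snoc i hi).1 t.len < (t.snoc i' hi').1 t.len
    rw [t.snoc_len, t.snoc_len]
    exact h⟩

theorem T.exists_left {s t : T J} (h : s < t) :
    ∃ N, ∀ j, s < t.snoc (lf N j) (lf_ne_mid _ _) := by
  obtain ⟨k, hk, hlt⟩ := T.lt_iff.1 h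
  rcases lt_trichotomy k t.len with h1 | h1 | h1
  · refine ⟨0, fun j => T.lt_iff.2 ⟨k, fun l hl => ?_, ?_⟩⟩
    · exact (hk l hl).trans (t.snoc_lt_len _ (hl.trans h1)).symm
    · show s.1 k < (t.snoc (lf 0 j) (lf_ne_mid _ _)).1 k
      rw [t.snoc_lt_len _ h1]
      exact hlt
  · subst h1
    rw [t.eq_mid le_rfl] at hlt
    obtain ⟨n, j', hn⟩ := eq_lf hlt
    refine ⟨n + 1, fun j => T.lt_iff.2 ⟨t.len, fun l hl => ?_, ?_⟩⟩
    · exact (hk l hl).trans (t.snoc_lt_len _ hl).symm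
    · show s.1 t.len < (t.snoc (lf (n + 1) j) (lf_ne_mid _ _)).1 t.len
      rw [t.snoc_len, hn]
      exact lf_lt_lf.2 (Or.inl (Nat.lt_succ_self n))
  · exfalso
    have h2 : s.1 t.len = mid := (hk _ h1).trans (t.eq_mid le_rfl)
    have h3 : s.1 k = mid := s.eq_mid ((s.len_le h2).trans h1.le)
    rw [h3, t.eq_mid h1.le] at hlt
    exact lt_irrefl _ hlt

theorem T.exists_right {s t : T J} (h : t < s) :
    ∃ N, ∀ j, t.snoc (rt N j) (rt_ne_mid _ _) < s := by
  obtain ⟨k, hk, hlt⟩ := T.lt_iff.1 h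
  rcases lt_trichotomy k t.len with h1 | h1 | h1
  · refine ⟨0, fun j => T.lt_iff.2 ⟨k, fun l hl => ?_, ?_⟩⟩
    · exact (t.snoc_lt_len _ (hl.trans h1)).trans (hk l hl)
    · show (t.snoc (rt 0 j) (rt_ne_mid _ _)).1 k < s.1 k
      rw [t.snoc_lt_len _ h1]
      exact hlt
  · subst h1
    rw [t.eq_mid le_rfl] at hlt
    obtain ⟨n, j', hn⟩ := eq_rt hlt
    refine ⟨n + 1, fun j => T.lt_iff.2 ⟨t.len, fun l hl => ?_, ?_⟩⟩
    · exact (t.snoc_lt_len _ hl).trans (hk l hl)
    · show (t.snoc (rt (n + 1) j) (rt_ne_mid _ _)).1 t.len < s.1 t.len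
      rw [t.snoc_len, hn]
      exact rt_lt_rt.2 (Or.inl (Nat.lt_succ_self n))
  · exfalso
    have h2 : s.1 t.len = mid := (hk _ h1).symm.trans (t.eq_mid le_rfl)
    have h3 : s.1 k = mid := s.eq_mid ((s.len_le h2).trans h1.le)
    rw [h3, t.eq_mid h1.le] at hlt
    exact lt_irrefl _ hlt

theorem mk_Idx (hJ : #J = ℵ₁) : #(Idx J) = ℵ₁ := by
  have h1 : #(Idx J) = #(ℕ × J) + (1 + #(ℕ × J)) := by
    have e : Idx J ≃ (ℕ × J) ⊕ (Unit ⊕ (ℕ × J)) :=
      ofLex.trans (Equiv.sumCongr ofLex (ofLex.trans (Equiv.sumCongr (Equiv.refl _)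
        (ofLex.trans (Equiv.prodCongr OrderDual.ofDual (Equiv.refl _))))))
    rw [mk_congr e, mk_sum, mk_sum]
    simp
  have h2 : #(ℕ × J) = ℵ₁ := by
    rw [mk_prod, hJ]
    simp only [Cardinal.lift_id, mk_nat]
    exact aleph0_mul_eq aleph0_lt_aleph_one.le
  rw [h1, h2]
  have h3 : (1 : Cardinal) + ℵ₁ = ℵ₁ :=
    add_eq_right aleph0_lt_aleph_one.le (one_le_aleph0.trans aleph0_lt_aleph_one.le)
  rw [h3]
  exact add_eq_self aleph0_lt_aleph_one.le

theorem mk_T_le (hJ : #J = ℵ₁) : #(T J) ≤ ℵ₁ := by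
  have hI := mk_Idx hJ
  have hinf : Infinite (Idx J) := infinite_iff.2 (by rw [hI]; exact aleph0_lt_aleph_one.le)
  have h1 : #(T J) ≤ #(List (Idx J)) := by
    refine mk_le_of_injective (f := fun t => (List.range t.len).map t.1) ?_
    intro s t h
    have hlen : s.len = t.len := by
      have := congrArg List.length h
      simpa using this
    apply Subtype.ext
    funext k
    rcases lt_or_ge k s.len with hk | hk
    · have h2 : ((List.range s.len).map s.1)[k]? = ((List.range t.len).map t.1)[k]? :=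
        congrArg (fun l => l[k]?) h
      simpa [hk, ← hlen] using h2
    · rw [s.eq_mid hk, t.eq_mid (hlen ▸ hk)]
  rw [mk_list_eq_mk, hI] at h1
  exact h1

theorem T.inC (hJ : #J = ℵ₁) : InC (T J) := by
  have hJne : Nonempty J := by
    rw [← mk_ne_zero_iff, hJ]
    exact (aleph0_pos.trans aleph0_lt_aleph_one).ne'
  obtain ⟨j₀⟩ := hJne
  have hcof : ∀ t : T J, IsLUB (range fun n => t.snoc (lf n j₀) (lf_ne_mid _ _)) t := by
    intro t
    refine ⟨?_, fun s hs => ?_⟩
    · rintro _ ⟨n, rfl⟩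
      exact (t.snoc_lt (lf_lt_mid _ _)).le
    · by_contra hcon
      obtain ⟨N, hN⟩ := T.exists_left (not_le.1 hcon)
      exact absurd (hs ⟨N, rfl⟩) (not_le.2 (hN j₀))
  have hcoi : ∀ t : T J, IsGLB (range fun n => t.snoc (rt n j₀) (rt_ne_mid _ _)) t := by
    intro t
    refine ⟨?_, fun s hs => ?_⟩
    · rintro _ ⟨n, rfl⟩
      exact (t.lt_snoc (mid_lt_rt _ _)).le
    · by_contra hcon
      obtain ⟨N, hN⟩ := T.exists_right (not_le.1 hcon)
      exact absurd (hs ⟨N, rfl⟩) (not_le.2 (hN j₀))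
  refine ⟨?_, fun s t hst => ?_, fun t _ => ⟨_, ?_, hcof t⟩, fun t _ => ⟨_, ?_, hcoi t⟩⟩
  · let t : T J := ⟨fun _ => mid, 0, fun k hk => absurd hk (Nat.not_lt_zero _), fun _ _ => rfl⟩
    exact ⟨_, _, t.snoc_lt (lf_lt_mid 0 j₀)⟩
  · apply le_antisymm
    · exact (mk_set_le _).trans (mk_T_le hJ)
    · obtain ⟨N, hN⟩ := T.exists_left hst
      rw [← hJ]
      refine mk_le_of_injective (f := fun j => (⟨t.snoc (lf N j) (lf_ne_mid _ _), hN j,
        t.snoc_lt (lf_lt_mid _ _)⟩ : Ioo s t)) ?_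
      intro j j' h
      have h1 : t.snoc (lf N j) (lf_ne_mid _ _) = t.snoc (lf N j') (lf_ne_mid _ _) :=
        congrArg Subtype.val h
      rcases lt_trichotomy j j' with h2 | h2 | h2
      · exact absurd h1 (t.snoc_lt_snoc _ _ (lf_lt_lf.2 (Or.inr ⟨rfl, h2⟩))).ne
      · exact h2
      · exact absurd h1.symm (t.snoc_lt_snoc _ _ (lf_lt_lf.2 (Or.inr ⟨rfl, h2⟩))).ne
  · intro n m hnm
    exact t.snoc_lt_snoc _ _ (lf_lt_lf.2 (Or.inl hnm))
  · intro n m hnm
    exact t.snoc_lt_snoc _ _ (rt_lt_rt.2 (Or.inl hnm))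

end T

end Pool.Agent.H458R4.Basis
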