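import Pool.Agent.H458R4.BasisA

/-!
# A finite basis for the `ℵ₁`-dense LOTS of countable character: the embedding of the tree orders
-/

namespace Pool.Agent.H458R4.Basis

open Cardinal Set

variable {L : Type} [LinearOrder L] {J : Type} [LinearOrder J]

/-- Between `a` and `b` there are pairwise disjoint nonempty open intervals in the order `J`. -/
def Sep (J : Type) [LinearOrder J] (a b : L) : Prop :=
  ∃ u v : J → L, (∀ j, a ≤ u j ∧ u j < v j ∧ v j ≤ b) ∧ ∀ j j', j < j' → v j ≤ u j'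

theorem Sep.mono {a b a' b' : L} (h : Sep J a' b') (h1 : a ≤ a') (h2 : b' ≤ b) : Sep J a b := by
  obtain ⟨u, v, h3, h4⟩ := h
  exact ⟨u, v, fun j => ⟨h1.trans (h3 j).1, (h3 j).2.1, (h3 j).2.2.trans h2⟩, h4⟩

/-- the properties of the point `x` and the intervals `c i` chosen in the interval `Q` -/
structure Node (Q : L × L) (x : L) (c : Idx J → L × L) : Prop where
  lt_x : Q.1 < x
  x_lt : x < Q.2
  sub : ∀ i ≠ mid, Q.1 ≤ (c i).1 ∧ (c i).1 < (c i).2 ∧ (c i).2 ≤ Q.2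
  left : ∀ i < mid, (c i).2 ≤ x
  right : ∀ i, mid < i → x ≤ (c i).1
  ord : ∀ i i', i < i' → i ≠ mid → i' ≠ mid → (c i).2 ≤ (c i').1
  conv_left : ∀ y < x, ∃ i < mid, y ≤ (c i).1
  conv_right : ∀ y, x < y → ∃ i, mid < i ∧ (c i).2 ≤ y

theorem exists_node (hL : InC L) [Nonempty J] {a₀ b₀ : L}
    (hsep : ∀ a b, a₀ ≤ a → a < b → b ≤ b₀ → Sep J a b) (Q : L × L)
    (hQ : a₀ ≤ Q.1 ∧ Q.1 < Q.2 ∧ Q.2 ≤ b₀) : ∃ x, ∃ c : Idx J → L × L, Node Q x c := by
  obtain ⟨a, b⟩ := Q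
  obtain ⟨ha, hab, hb⟩ := hQ
  simp only at ha hab hb
  obtain ⟨x, hax, hxb⟩ := hL.exists_between hab
  -- the sequences
  obtain ⟨y, hy, hay, hyx, hyc⟩ : ∃ y : ℕ → L, StrictMono y ∧ (∀ n, a ≤ y n) ∧ (∀ n, y n < x) ∧
      ∀ z < x, ∃ n, z ≤ y n := by
    obtain ⟨f, hf, hlub⟩ := hL.cofinality x ⟨a, hax⟩
    obtain ⟨_, ⟨N, rfl⟩, hN⟩ := (lt_isLUB_iff hlub).1 hax
    have hlt : ∀ n, f n < x := fun n => (hf (Nat.lt_succ_self n)).trans_le (hlub.1 ⟨n + 1, rfl⟩)
    refine ⟨fun n => f (N + n), fun n m h => hf (by omega),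
      fun n => hN.le.trans (hf.monotone (Nat.le_add_right _ _)), fun n => hlt _, fun z hz => ?_⟩
    obtain ⟨_, ⟨n, rfl⟩, hn⟩ := (lt_isLUB_iff hlub).1 hz
    exact ⟨n, hn.le.trans (hf.monotone (Nat.le_add_left _ _))⟩
  obtain ⟨z, hz, hzb, hxz, hzc⟩ : ∃ z : ℕ → L, StrictAnti z ∧ (∀ n, z n ≤ b) ∧ (∀ n, x < z n) ∧
      ∀ w, x < w → ∃ n, z n ≤ w := by
    obtain ⟨f, hf, hglb⟩ := hL.coinitiality x ⟨b, hxb⟩
    obtain ⟨_, ⟨N, rfl⟩, hN⟩ := (isGLB_lt_iff hglb).1 hxb
    have hlt : ∀ n, x < f n := fun n => (hglb.1 ⟨n + 1, rfl⟩).trans_lt (hf (Nat.lt_succ_self n))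
    refine ⟨fun n => f (N + n), fun n m h => hf (by omega),
      fun n => (hf.antitone (Nat.le_add_right _ _)).trans hN.le, fun n => hlt _, fun w hw => ?_⟩
    obtain ⟨_, ⟨n, rfl⟩, hn⟩ := (isGLB_lt_iff hglb).1 hw
    exact ⟨n, (hf.antitone (Nat.le_add_left _ _)).trans hn.le⟩
  -- the intervals
  have hl : ∀ n, Sep J (y n) (y (n + 1)) := fun n =>
    hsep _ _ (ha.trans (hay n)) (hy (Nat.lt_succ_self n)) (((hyx _).trans hxb).le.trans hb)
  have hr : ∀ n, Sep J (z (n + 1)) (z n) := fun n =>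
    hsep _ _ (ha.trans (hax.trans (hxz _)).le) (hz (Nat.lt_succ_self n)) ((hzb n).trans hb)
  choose u v huv huv' using hl
  choose u' v' huv1 huv1' using hr
  let c : Idx J → L × L := fun i =>
    Sum.elim (fun p : ℕ ×ₗ J => (u (ofLex p).1 (ofLex p).2, v (ofLex p).1 (ofLex p).2))
      (fun q : Unit ⊕ₗ (ℕᵒᵈ ×ₗ J) => Sum.elim (fun _ : Unit => (x, x))
        (fun r : ℕᵒᵈ ×ₗ J => (u' (OrderDual.ofDual (ofLex r).1) (ofLex r).2,
          v' (OrderDual.ofDual (ofLex r).1) (ofLex r).2)) (ofLex q)) (ofLex i)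
  have hcl : ∀ n j, c (lf n j) = (u n j, v n j) := fun _ _ => rfl
  have hcr : ∀ n j, c (rt n j) = (u' n j, v' n j) := fun _ _ => rfl
  have hleft : ∀ i < mid, (c i).2 ≤ x := by
    intro i hi
    obtain ⟨n, j, rfl⟩ := eq_lf hi
    rw [hcl]
    exact (huv n j).2.2.trans (hyx _).le
  have hright : ∀ i, mid < i → x ≤ (c i).1 := by
    intro i hi
    obtain ⟨n, j, rfl⟩ := eq_rt hi
    rw [hcr]
    exact (hxz _).le.trans (huv1 n j).1
  refine ⟨x, c, hax, hxb, ?_, hleft, hright, ?_, ?_, ?_⟩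
  · intro i hi
    rcases idx_cases i with ⟨n, j, rfl⟩ | rfl | ⟨n, j, rfl⟩
    · rw [hcl]
      exact ⟨(hay n).trans (huv n j).1, (huv n j).2.1,
        (huv n j).2.2.trans ((hyx _).trans hxb).le⟩
    · exact absurd rfl hi
    · rw [hcr]
      exact ⟨(hax.trans (hxz _)).le.trans (huv1 n j).1, (huv1 n j).2.1,
        (huv1 n j).2.2.trans (hzb n)⟩
  · intro i i' hii hi hi'
    rcases lt_or_gt_of_ne hi with h | h
    · rcases lt_or_gt_of_ne hi' with h' | h'
      · obtain ⟨n, j, rfl⟩ := eq_lf h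
        obtain ⟨n', j', rfl⟩ := eq_lf h'
        rw [hcl, hcl]
        rcases lf_lt_lf.1 hii with h1 | ⟨rfl, h1⟩
        · exact (huv n j).2.2.trans ((hy.monotone (Nat.succ_le_of_lt h1)).trans (huv n' j').1)
        · exact huv' n j j' h1
      · exact (hleft i h).trans (hright i' h')
    · have h' : mid < i' := h.trans hii
      obtain ⟨n, j, rfl⟩ := eq_rt h
      obtain ⟨n', j', rfl⟩ := eq_rt h'
      rw [hcr, hcr]
      rcases rt_lt_rt.1 hii with h1 | ⟨rfl, h1⟩
      · exact (huv1 n j).2.2.trans ((hz.antitone (Nat.succ_le_of_lt h1)).trans (huv1 n' j').1)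
      · exact huv1' n j j' h1
  · intro w hw
    obtain ⟨n, hn⟩ := hyc w hw
    refine ⟨lf n (Classical.arbitrary J), lf_lt_mid _ _, ?_⟩
    rw [hcl]
    exact hn.trans (huv n _).1
  · intro w hw
    obtain ⟨n, hn⟩ := hzc w hw
    refine ⟨rt n (Classical.arbitrary J), mid_lt_rt _ _, ?_⟩
    rw [hcr]
    exact (huv1 n _).2.2.trans hn

/-- **The embedding.** If `J` is found separated between any two points of an interval then the
tree order `T J` has a LOTS embedding. -/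
theorem exists_embedding (hL : InC L) [Nonempty J] {a₀ b₀ : L} (h0 : a₀ < b₀)
    (hsep : ∀ a b, a₀ ≤ a → a < b → b ≤ b₀ → Sep J a b) :
    ∃ f : T J → L, IsLOTSEmbedding f := by
  classical
  have hex := exists_node hL hsep
  let V : L × L → Prop := fun Q => a₀ ≤ Q.1 ∧ Q.1 < Q.2 ∧ Q.2 ≤ b₀
  have hX : ∃ (X : L × L → L) (C : L × L → Idx J → L × L), ∀ Q, V Q → Node Q (X Q) (C Q) := by
    refine ⟨fun Q => if h : V Q then (hex Q h).choose else a₀,
      fun Q => if h : V Q then (hex Q h).choose_spec.choose else fun _ => (a₀, b₀), fun Q hQ => ?_⟩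
    simp only [dif_pos hQ]
    exact (hex Q hQ).choose_spec.choose_spec
  obtain ⟨X, C, hN⟩ := hX
  let P : (ℕ → Idx J) → ℕ → L × L := fun f k =>
    Nat.rec (a₀, b₀) (fun k Q => if f k = mid then Q else C Q (f k)) k
  have hP0 : ∀ f, P f 0 = (a₀, b₀) := fun _ => rfl
  have hPs : ∀ f k, P f (k + 1) = if f k = mid then P f k else C (P f k) (f k) := fun _ _ => rfl
  have hPm : ∀ f k, f k = mid → P f (k + 1) = P f k := fun f k h => by rw [hPs, if_pos h]
  have hPn : ∀ f k, f k ≠ mid → P f (k + 1) = C (P f k) (f k) := fun f k h => by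
    rw [hPs, if_neg h]
  have hV : ∀ f k, V (P f k) := by
    intro f k
    induction k with
    | zero => exact ⟨le_rfl, h0, le_rfl⟩
    | succ k ih =>
      by_cases h : f k = mid
      · rw [hPm f k h]; exact ih
      · rw [hPn f k h]
        obtain ⟨h1, h2, h3⟩ := (hN _ ih).sub (f k) h
        exact ⟨ih.1.trans h1, h2, h3.trans ih.2.2⟩
  have hcongr : ∀ f g k, (∀ j < k, f j = g j) → P f k = P g k := by
    intro f g k
    induction k with
    | zero => intro _; rfl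
    | succ k ih =>
      intro h
      have h1 := ih fun j hj => h j (hj.trans (Nat.lt_succ_self k))
      rw [hPs, hPs, h k (Nat.lt_succ_self k), h1]
  have hmono : ∀ f k m, k ≤ m → (P f k).1 ≤ (P f m).1 ∧ (P f m).2 ≤ (P f k).2 := by
    intro f k m hkm
    induction m, hkm using Nat.le_induction with
    | base => exact ⟨le_rfl, le_rfl⟩
    | succ m hm ih =>
      by_cases h : f m = mid
      · rw [hPm f m h]; exact ih
      · rw [hPn f m h]
        obtain ⟨h1, h2, h3⟩ := (hN _ (hV f m)).sub (f m) h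
        exact ⟨ih.1.trans h1, h3.trans ih.2⟩
  have hstab : ∀ (f : ℕ → Idx J) m k, (∀ j, m ≤ j → f j = mid) → m ≤ k → P f k = P f m := by
    intro f m k h hmk
    induction k, hmk using Nat.le_induction with
    | base => rfl
    | succ k hk ih => rw [hPm f k (h k hk), ih]
  let F : T J → L := fun t => X (P t.1 t.len)
  have hF : ∀ (t : T J) k, t.1 k = mid → F t = X (P t.1 k) := by
    intro t k h
    show X (P t.1 t.len) = X (P t.1 k)
    rw [hstab t.1 t.len k (fun j hj => t.eq_mid hj) (t.len_le h)]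
  have hmem : ∀ (t : T J) k, (P t.1 k).1 < F t ∧ F t < (P t.1 k).2 := by
    intro t k
    have h1 := hN _ (hV t.1 t.len)
    rcases le_total k t.len with h | h
    · obtain ⟨h2, h3⟩ := hmono t.1 k t.len h
      exact ⟨h2.trans_lt h1.lt_x, h1.x_lt.trans_le h3⟩
    · rw [hstab t.1 t.len k (fun j hj => t.eq_mid hj) h]
      exact ⟨h1.lt_x, h1.x_lt⟩
  have hstrict : StrictMono F := by
    intro s t hst
    obtain ⟨k, hk, hlt⟩ := T.lt_iff.1 hst
    have hQ : P s.1 k = P t.1 k := hcongr _ _ _ hk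
    have hnode := hN _ (hV t.1 k)
    by_cases hs : s.1 k = mid
    · have ht : t.1 k ≠ mid := by
        rw [hs] at hlt
        exact hlt.ne'
      rw [hF s k hs, hQ]
      have h1 := (hmem t (k + 1)).1
      rw [hPn _ _ ht] at h1
      rw [hs] at hlt
      exact (hnode.right _ hlt).trans_lt h1
    · have h2 := (hmem s (k + 1)).2
      rw [hPn _ _ hs, hQ] at h2
      by_cases ht : t.1 k = mid
      · rw [hF t k ht]
        rw [ht] at hlt
        exact h2.trans_le (hnode.left _ hlt)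
      · have h1 := (hmem t (k + 1)).1
        rw [hPn _ _ ht] at h1
        exact h2.trans_le ((hnode.ord _ _ hlt hs ht).trans h1.le)
  have hsnocP : ∀ (t : T J) i (hi : i ≠ mid), P (t.snoc i hi).1 (t.len + 1) = C (P t.1 t.len) i := by
    intro t i hi
    have h1 : (t.snoc i hi).1 t.len = i := t.snoc_len hi
    have h2 : P (t.snoc i hi).1 t.len = P t.1 t.len :=
      hcongr _ _ _ fun j hj => t.snoc_lt_len hi hj
    rw [hPn _ _ (by rw [h1]; exact hi), h1, h2]
  refine ⟨F, isLOTSEmbedding_of hstrict (fun t y hy => ?_) fun t y hy => ?_⟩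
  · obtain ⟨i, hi, hi'⟩ := (hN _ (hV t.1 t.len)).conv_left y hy
    refine ⟨t.snoc i hi.ne, t.snoc_lt hi, ?_⟩
    have h1 := (hmem (t.snoc i hi.ne) (t.len + 1)).1
    rw [hsnocP] at h1
    exact hi'.trans h1.le
  · obtain ⟨i, hi, hi'⟩ := (hN _ (hV t.1 t.len)).conv_right y hy
    refine ⟨t.snoc i hi.ne', t.lt_snoc hi, ?_⟩
    have h1 := (hmem (t.snoc i hi.ne') (t.len + 1)).2
    rw [hsnocP] at h1
    exact h1.le.trans hi'

end Pool.Agent.H458R4.Basis
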