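import Pool.Agent.H458R4.BasisB

/-!
# A finite basis for the `ℵ₁`-dense LOTS of countable character
-/

namespace Pool.Agent.H458R4.Basis

open Cardinal Set

/-- Each linear order of cardinality `ℵ₁` contains a copy of one of `n` given linear orders of
cardinality `ℵ₁`. (Equivalently: the uncountable linear orders have a basis with `n` elements.) -/
def HasOrderBasis (n : ℕ) : Prop :=
  ∃ (J : Fin n → Type) (_ : ∀ i, LinearOrder (J i)), (∀ i, #(J i) = ℵ₁) ∧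
    ∀ (L : Type) [LinearOrder L], #L = ℵ₁ → ∃ i, Nonempty (J i ↪o L)

/-- A set of reals is `ℵ₁`-dense if it has exactly `ℵ₁` elements between any two reals. -/
def AlephOneDense (Y : Set ℝ) : Prop := ∀ a b : ℝ, a < b → #(Y ∩ Ioo a b : Set ℝ) = ℵ₁

/-- Baumgartner's axiom: any two `ℵ₁`-dense sets of reals are order isomorphic. -/
def BaumgartnerAxiom : Prop :=
  ∀ Y Z : Set ℝ, AlephOneDense Y → AlephOneDense Z → Nonempty (Y ≃o Z)

/-- Suslin's hypothesis: a linear order in which each family of pairwise disjoint nonempty open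
intervals is countable has a countable set which meets each nonempty open interval. -/
def SuslinHypothesis : Prop :=
  ∀ (K : Type) [LinearOrder K],
    (∀ 𝓤 : Set (K × K), (∀ p ∈ 𝓤, (Ioo p.1 p.2).Nonempty) →
      (∀ p ∈ 𝓤, ∀ q ∈ 𝓤, p ≠ q → Disjoint (Ioo p.1 p.2) (Ioo q.1 q.2)) → 𝓤.Countable) →
    ∃ D : Set K, D.Countable ∧ ∀ a b, (Ioo a b).Nonempty → (Ioo a b ∩ D).Nonempty

/-- The class of the `ℵ₁`-dense LOTS of countable character has a basis with `n` elements. -/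
def HasLOTSBasis (n : ℕ) : Prop :=
  ∃ (B : Fin n → Type) (_ : ∀ i, LinearOrder (B i)), (∀ i, InC (B i)) ∧
    ∀ (L : Type) [LinearOrder L], InC L → ∃ i, ∃ f : B i → L, IsLOTSEmbedding f

theorem IsLOTSEmbedding.comp {A B C : Type} [LinearOrder A] [LinearOrder B] [LinearOrder C]
    {f : A → B} {g : B → C} (hg : IsLOTSEmbedding g) (hf : IsLOTSEmbedding f) :
    IsLOTSEmbedding (g ∘ f) := by
  refine ⟨hg.1.comp hf.1, fun x y h => hg.2.1 _ _ (hf.2.1 _ _ h), ?_⟩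
  let : TopologicalSpace A := Preorder.topology A
  let : TopologicalSpace B := Preorder.topology B
  let : TopologicalSpace C := Preorder.topology C
  exact Continuous.comp hg.2.2 hf.2.2

theorem isLOTSEmbedding_iso {A B : Type} [LinearOrder A] [LinearOrder B] (e : A ≃o B) :
    IsLOTSEmbedding e := by
  refine isLOTSEmbedding_of e.strictMono (fun t y h => ⟨e.symm y, ?_, ?_⟩)
    fun t y h => ⟨e.symm y, ?_, ?_⟩
  · rw [← e.lt_iff_lt, e.apply_symm_apply]; exact h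
  · rw [e.apply_symm_apply]
  · rw [← e.lt_iff_lt, e.apply_symm_apply]; exact h
  · rw [e.apply_symm_apply]

variable {L : Type} [LinearOrder L]

/-- open intervals as suborders -/
theorem isLOTSEmbedding_Ioo (hL : InC L) (a b : L) :
    IsLOTSEmbedding (fun x : Ioo a b => (x : L)) := by
  refine isLOTSEmbedding_of (fun x y h => h) (fun t y h => ?_) fun t y h => ?_
  · obtain ⟨s, hs, hs'⟩ := hL.exists_between (max_lt h t.2.1)
    exact ⟨⟨s, (le_max_right _ _).trans_lt hs, hs'.trans t.2.2⟩, hs', ((le_max_left _ _).trans_lt hs).le⟩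
  · obtain ⟨s, hs, hs'⟩ := hL.exists_between (lt_min h t.2.2)
    exact ⟨⟨s, t.2.1.trans hs, hs'.trans_le (min_le_right _ _)⟩, hs, (hs'.trans_le (min_le_left _ _)).le⟩

theorem inC_Ioo (hL : InC L) {a b : L} (hab : a < b) : InC (Ioo a b) := by
  refine ⟨?_, fun s t hst => ?_, fun x _ => ?_, fun x _ => ?_⟩
  · obtain ⟨c, h1, h2⟩ := hL.exists_between hab
    obtain ⟨d, h3, h4⟩ := hL.exists_between h2
    exact ⟨⟨c, h1, h2⟩, ⟨d, h1.trans h3, h4⟩, h3⟩
  · rw [← hL.dense s.1 t.1 hst]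
    refine mk_congr ⟨fun x => ⟨x.1.1, x.2.1, x.2.2⟩,
      fun x => ⟨⟨x.1, s.2.1.trans x.2.1, x.2.2.trans t.2.2⟩, x.2.1, x.2.2⟩,
      fun x => rfl, fun x => rfl⟩
  · obtain ⟨f, hf, hlub⟩ := hL.cofinality x.1 ⟨a, x.2.1⟩
    obtain ⟨_, ⟨N, rfl⟩, hN⟩ := (lt_isLUB_iff hlub).1 x.2.1
    have hlt : ∀ n, f n < x.1 := fun n =>
      (hf (Nat.lt_succ_self n)).trans_le (hlub.1 ⟨n + 1, rfl⟩)
    refine ⟨fun n => ⟨f (N + n), hN.trans_le (hf.monotone (Nat.le_add_right _ _)),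
      (hlt _).trans x.2.2⟩, fun n m h => ?_, ?_, fun y hy => ?_⟩
    · exact hf (show N + n < N + m by omega)
    · rintro _ ⟨n, rfl⟩
      exact (hlt _).le
    · by_contra hcon
      obtain ⟨_, ⟨n, rfl⟩, hn⟩ := (lt_isLUB_iff hlub).1 (not_le.1 hcon)
      have h1 := hy ⟨n, rfl⟩
      have h2 : f (N + n) ≤ y.1 := h1
      exact absurd (hn.trans_le (hf.monotone (Nat.le_add_left n N))) (not_lt.2 h2)
  · obtain ⟨f, hf, hglb⟩ := hL.coinitiality x.1 ⟨b, x.2.2⟩
    obtain ⟨_, ⟨N, rfl⟩, hN⟩ := (isGLB_lt_iff hglb).1 x.2.2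
    have hlt : ∀ n, x.1 < f n := fun n =>
      (hglb.1 ⟨n + 1, rfl⟩).trans_lt (hf (Nat.lt_succ_self n))
    refine ⟨fun n => ⟨f (N + n), x.2.1.trans (hlt _),
      (hf.antitone (Nat.le_add_right _ _)).trans_lt hN⟩, fun n m h => ?_, ?_, fun y hy => ?_⟩
    · exact hf (show N + n < N + m by omega)
    · rintro _ ⟨n, rfl⟩
      exact (hlt _).le
    · by_contra hcon
      obtain ⟨_, ⟨n, rfl⟩, hn⟩ := (isGLB_lt_iff hglb).1 (not_le.1 hcon)
      have h1 := hy ⟨n, rfl⟩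
      have h2 : y.1 ≤ f (N + n) := h1
      exact absurd ((hf.antitone (Nat.le_add_left n N)).trans_lt hn) (not_lt.2 h2)

/-- separable members of the class without end points -/
structure SepC (K : Type) [LinearOrder K] : Prop where
  inC : InC K
  noMin : ∀ x : K, ∃ y, y < x
  noMax : ∀ x : K, ∃ y, x < y
  card : #K = ℵ₁
  sep : ∃ D : Set K, D.Countable ∧ ∀ a b, (Ioo a b).Nonempty → (Ioo a b ∩ D).Nonempty

/-- a separable member of the class is isomorphic to an `ℵ₁`-dense set of reals -/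
theorem SepC.exists_real {K : Type} [LinearOrder K] (hK : SepC K) :
    ∃ Y : Set ℝ, AlephOneDense Y ∧ Nonempty (K ≃o Y) := by
  obtain ⟨D, hD, hD'⟩ := hK.sep
  have hbet : ∀ a b : K, a < b → ∃ d ∈ D, a < d ∧ d < b := by
    intro a b hab
    obtain ⟨c, h1, h2⟩ := hK.inC.exists_between hab
    obtain ⟨d, h3, h4⟩ := hD' a b ⟨c, h1, h2⟩
    exact ⟨d, h4, h3.1, h3.2⟩
  have hDc : Countable D := hD
  have hDne : Nonempty D := by
    obtain ⟨a, b, hab⟩ := hK.inC.nontrivial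
    obtain ⟨d, hd, _⟩ := hbet a b hab
    exact ⟨⟨d, hd⟩⟩
  have hDd : DenselyOrdered D := ⟨fun a b hab => by
    obtain ⟨d, hd, h1, h2⟩ := hbet a.1 b.1 hab
    exact ⟨⟨d, hd⟩, h1, h2⟩⟩
  have hDmin : NoMinOrder D := ⟨fun a => by
    obtain ⟨y, hy⟩ := hK.noMin a.1
    obtain ⟨d, hd, h1, h2⟩ := hbet y a.1 hy
    exact ⟨⟨d, hd⟩, h2⟩⟩
  have hDmax : NoMaxOrder D := ⟨fun a => by
    obtain ⟨y, hy⟩ := hK.noMax a.1
    obtain ⟨d, hd, h1, h2⟩ := hbet a.1 y hy
    exact ⟨⟨d, hd⟩, h1⟩⟩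
  obtain ⟨φ⟩ := Order.iso_of_countable_dense D ℚ
  let S : K → Set ℝ := fun x => {r | ∃ d : D, d.1 < x ∧ r = φ d}
  let g : K → ℝ := fun x => sSup (S x)
  have hne : ∀ x, (S x).Nonempty := by
    intro x
    obtain ⟨y, hy⟩ := hK.noMin x
    obtain ⟨d, hd, _, h2⟩ := hbet y x hy
    exact ⟨_, ⟨d, hd⟩, h2, rfl⟩
  have hup : ∀ (x : K) (d : D), x ≤ d.1 → ∀ r ∈ S x, r ≤ φ d := by
    rintro x d hd r ⟨e, he, rfl⟩
    have h1 : e < d := he.trans_le hd
    exact_mod_cast (φ.lt_iff_lt.2 h1).le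
  have hbdd : ∀ x, BddAbove (S x) := by
    intro x
    obtain ⟨y, hy⟩ := hK.noMax x
    obtain ⟨d, hd, h1, _⟩ := hbet x y hy
    exact ⟨φ ⟨d, hd⟩, hup x ⟨d, hd⟩ h1.le⟩
  have hle : ∀ (x : K) (d : D), x ≤ d.1 → g x ≤ φ d := fun x d hd => csSup_le (hne x) (hup x d hd)
  have hge : ∀ (x : K) (d : D), d.1 < x → (φ d : ℝ) ≤ g x := fun x d hd =>
    le_csSup (hbdd x) ⟨d, hd, rfl⟩
  have hmono : StrictMono g := by
    intro x y hxy
    obtain ⟨d, hd, h1, h2⟩ := hbet x y hxy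
    obtain ⟨e, he, h3, h4⟩ := hbet d y h2
    have h5 : φ ⟨d, hd⟩ < φ ⟨e, he⟩ := φ.lt_iff_lt.2 h3
    have h6 : (φ ⟨d, hd⟩ : ℝ) < φ ⟨e, he⟩ := by exact_mod_cast h5
    exact (hle x ⟨d, hd⟩ h1.le).trans_lt (h6.trans_le (hge y ⟨e, he⟩ h4))
  refine ⟨range g, fun a b hab => ?_, ⟨hmono.orderIso g⟩⟩
  apply le_antisymm
  · refine (mk_le_mk_of_subset inter_subset_left).trans (mk_range_le.trans hK.card.le)
  · obtain ⟨q, hq1, hq2⟩ := exists_rat_btwn hab
    obtain ⟨q', hq3, hq4⟩ := exists_rat_btwn hq2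
    have h1 : φ.symm q < φ.symm q' := φ.symm.lt_iff_lt.2 (by exact_mod_cast hq3)
    rw [← hK.inC.dense _ _ h1]
    refine mk_le_of_injective (f := fun x : Ioo (φ.symm q).1 (φ.symm q').1 =>
      (⟨g x.1, ⟨x.1, rfl⟩, ?_, ?_⟩ : (range g ∩ Ioo a b : Set ℝ))) ?_
    · have h2 := hge x.1 (φ.symm q) x.2.1
      rw [φ.apply_symm_apply] at h2
      exact hq1.trans_le h2
    · have h2 := hle x.1 (φ.symm q') x.2.2.le
      rw [φ.apply_symm_apply] at h2
      exact h2.trans_lt hq4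
    · intro x y h
      exact Subtype.ext (hmono.injective (congrArg Subtype.val h))

/-- there are uncountably many pairwise disjoint nonempty open intervals between `a` and `b` -/
def Many (a b : L) : Prop :=
  ∃ S : Set L, ¬ S.Countable ∧ ∃ v : L → L, (∀ u ∈ S, a ≤ u ∧ u < v u ∧ v u ≤ b) ∧
    ∀ u ∈ S, ∀ u' ∈ S, u < u' → v u ≤ u'

theorem sepC_of_not_many (hSH : SuslinHypothesis) (hL : InC L) {a b : L} (hab : a < b)
    (hm : ¬ Many a b) : SepC (Ioo a b) := by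
  classical
  have hK := inC_Ioo hL hab
  refine ⟨hK, fun x => ?_, fun x => ?_, hL.dense a b hab, ?_⟩
  · obtain ⟨c, h1, h2⟩ := hL.exists_between x.2.1
    exact ⟨⟨c, h1, h2.trans x.2.2⟩, h2⟩
  · obtain ⟨c, h1, h2⟩ := hL.exists_between x.2.2
    exact ⟨⟨c, x.2.1.trans h1, h2⟩, h1⟩
  · apply hSH
    intro 𝓤 hne hdis
    by_contra hunc
    apply hm
    have hlt : ∀ p ∈ 𝓤, p.1 < p.2 := fun p hp => by
      obtain ⟨x, hx⟩ := hne p hp
      exact hx.1.trans hx.2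
    have hinj : Set.InjOn Prod.fst 𝓤 := by
      intro p hp q hq h
      by_contra hpq
      obtain ⟨x, h1, h2⟩ := hK.exists_between (lt_min (hlt p hp) (h ▸ hlt q hq : p.1 < q.2))
      exact Set.disjoint_left.1 (hdis p hp q hq hpq)
        (show x ∈ Ioo p.1 p.2 from ⟨h1, h2.trans_le (min_le_left _ _)⟩)
        ⟨h ▸ h1, h2.trans_le (min_le_right _ _)⟩
    have hchoice : ∀ u : L, ∃ w : L, ∀ p ∈ 𝓤, (p.1 : L) = u → w = p.2 := by
      intro u
      by_cases h : ∃ p ∈ 𝓤, (p.1 : L) = u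
      · obtain ⟨p, hp, hpu⟩ := h
        refine ⟨p.2, fun q hq hqu => ?_⟩
        rw [hinj hp hq (Subtype.ext (hpu.trans hqu.symm))]
      · exact ⟨u, fun p hp hpu => absurd ⟨p, hp, hpu⟩ h⟩
    choose v hv using hchoice
    refine ⟨(fun p : Ioo a b × Ioo a b => (p.1 : L)) '' 𝓤, fun hc => hunc ?_, v, ?_, ?_⟩
    · refine Set.countable_of_injective_of_countable_image (f := fun p : Ioo a b × Ioo a b =>
        (p.1 : L)) (fun p hp q hq h => hinj hp hq (Subtype.ext h)) hc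
    · rintro _ ⟨p, hp, rfl⟩
      have h1 : v (p.1 : L) = p.2 := hv _ p hp rfl
      simp only [h1]
      exact ⟨p.1.2.1.le, hlt p hp, p.2.2.2.le⟩
    · rintro _ ⟨p, hp, rfl⟩ _ ⟨q, hq, rfl⟩ hpq
      have h1 : v (p.1 : L) = p.2 := hv _ p hp rfl
      simp only [h1]
      by_contra hcon
      have h2 : q.1 < p.2 := not_le.1 hcon
      obtain ⟨x, h3, h4⟩ := hK.exists_between (lt_min h2 (hlt q hq))
      have hne' : p ≠ q := by
        rintro rfl
        exact lt_irrefl _ hpq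
      have h5 : p.1 < x := lt_trans (show p.1 < q.1 from hpq) h3
      exact Set.disjoint_left.1 (hdis p hp q hq hne')
        (show x ∈ Ioo p.1 p.2 from ⟨h5, h4.trans_le (min_le_left _ _)⟩)
        ⟨h3, h4.trans_le (min_le_right _ _)⟩

theorem sep_of_many {n : ℕ} {J : Fin n → Type} [∀ i, LinearOrder (J i)]
    (hJ : ∀ (L : Type) [LinearOrder L], #L = ℵ₁ → ∃ i, Nonempty (J i ↪o L)) {a b : L}
    (hm : Many a b) : ∃ i, Sep (J i) a b := by
  obtain ⟨S, hS, v, h1, h2⟩ := hm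
  have h3 : ℵ₁ ≤ #S := by
    rw [← succ_aleph0]
    refine Order.succ_le_of_lt ?_
    rw [← not_le, le_aleph0_iff_set_countable]
    exact hS
  obtain ⟨S', hS'S, hS'⟩ := le_mk_iff_exists_subset.1 h3
  obtain ⟨i, ⟨e⟩⟩ := hJ S' hS'
  refine ⟨i, fun j => e j, fun j => v (e j), fun j => h1 _ (hS'S (e j).2), fun j j' hjj => ?_⟩
  exact h2 _ (hS'S (e j).2) _ (hS'S (e j').2) (e.lt_iff_lt.2 hjj)

/-- **Theorem.** -/
theorem hasLOTSBasis {n : ℕ} (h1 : HasOrderBasis n) (h2 : BaumgartnerAxiom)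
    (h3 : SuslinHypothesis) : HasLOTSBasis (n + 1) := by
  classical
  obtain ⟨J, _, hJ1, hJ2⟩ := h1
  have hJne : ∀ i, Nonempty (J i) := fun i => by
    rw [← mk_ne_zero_iff, hJ1]
    exact (aleph0_pos.trans aleph0_lt_aleph_one).ne'
  -- the separable type
  obtain ⟨K, _, hK1, hK2⟩ : ∃ (K : Type) (_ : LinearOrder K), InC K ∧
      ((∃ (K' : Type) (_ : LinearOrder K'), SepC K') → SepC K) := by
    by_cases h : ∃ (K' : Type) (_ : LinearOrder K'), SepC K'
    · obtain ⟨K', _, hK'⟩ := h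
      exact ⟨K', inferInstance, hK'.inC, fun _ => hK'⟩
    · obtain ⟨i, _⟩ := hJ2 (ℵ₁ : Cardinal.{0}).ord.ToType (mk_ord_toType _)
      exact ⟨T (J i), inferInstance, T.inC (hJ1 i), fun h' => absurd h' h⟩
  let B : Fin (n + 1) → (α : Type) × LinearOrder α :=
    Fin.cons ⟨K, inferInstance⟩ fun i => ⟨T (J i), inferInstance⟩
  refine ⟨fun i => (B i).1, fun i => (B i).2, ?_, ?_⟩
  · intro i
    refine Fin.cases ?_ (fun i => ?_) i
    · exact hK1
    · exact T.inC (hJ1 i)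
  · intro L _ hL
    by_cases hmany : ∀ a b : L, a < b → Many a b
    · -- homogenise
      let τ : L × L → Finset (Fin n) := fun p => Finset.univ.filter fun i => Sep (J i) p.1 p.2
      obtain ⟨a₁, b₁, hab₁⟩ := hL.nontrivial
      obtain ⟨⟨a₀, b₀⟩, hab₀, hmin⟩ : ∃ p : L × L, p.1 < p.2 ∧
          ∀ q : L × L, q.1 < q.2 → (τ p).card ≤ (τ q).card := by
        have hne : {p : L × L | p.1 < p.2}.Nonempty := ⟨(a₁, b₁), hab₁⟩
        obtain ⟨p, hp, hp'⟩ := exists_minimalFor_of_wellFoundedLT (fun p : L × L => p.1 < p.2)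
          (fun p => (τ p).card) ⟨(a₁, b₁), hab₁⟩
        refine ⟨p, hp, fun q hq => ?_⟩
        by_contra hcon
        exact hcon (hp' hq (not_le.1 hcon).le)
      obtain ⟨i, hi⟩ := sep_of_many hJ2 (hmany a₀ b₀ hab₀)
      have hsep : ∀ a b, a₀ ≤ a → a < b → b ≤ b₀ → Sep (J i) a b := by
        intro a b ha hab hb
        have hsub : τ (a, b) ⊆ τ (a₀, b₀) := by
          intro k hk
          simp only [τ, Finset.mem_filter, Finset.mem_univ, true_and] at hk ⊢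
          exact hk.mono ha hb
        have heq : τ (a, b) = τ (a₀, b₀) := Finset.eq_of_subset_of_card_le hsub (hmin (a, b) hab)
        have hmem : i ∈ τ (a₀, b₀) := by
          simp only [τ, Finset.mem_filter, Finset.mem_univ, true_and]
          exact hi
        rw [← heq] at hmem
        simp only [τ, Finset.mem_filter, Finset.mem_univ, true_and] at hmem
        exact hmem
      have := hJne i
      obtain ⟨f, hf⟩ := exists_embedding hL hab₀ hsep
      exact ⟨Fin.succ i, f, hf⟩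
    · push Not at hmany
      obtain ⟨a, b, hab, hm⟩ := hmany
      have hsepC := sepC_of_not_many h3 hL hab hm
      have hKs := hK2 ⟨_, _, hsepC⟩
      obtain ⟨Y, hY, ⟨e⟩⟩ := hsepC.exists_real
      obtain ⟨Z, hZ, ⟨e'⟩⟩ := hKs.exists_real
      obtain ⟨e''⟩ := h2 Z Y hZ hY
      have hemb : ∃ f : K → L, IsLOTSEmbedding f :=
        ⟨_, (isLOTSEmbedding_Ioo hL a b).comp
          (isLOTSEmbedding_iso ((e'.trans e'').trans e.symm))⟩
      obtain ⟨f, hf⟩ := hemb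
      exact ⟨0, f, hf⟩

end Pool.Agent.H458R4.Basis
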