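import Mathlib

/-!
# Selective independent families from `cov(M) = 𝔠`
-/

namespace Pool.Agent.H458R4.Sel

open Cardinal Set

/-- The Boolean combination `⋂ A \ ⋃ B` of the finite families `A` and `B`. -/
def cell (A B : Finset (Set ℕ)) : Set ℕ := {n | (∀ X ∈ A, n ∈ X) ∧ ∀ X ∈ B, n ∉ X}

/-- `(A, B)` represents the finite partial function from `I` to `2` with domain `A ∪ B` which
takes the value `0` on `A` and `1` on `B`. -/
structure IsFF (I : Set (Set ℕ)) (A B : Finset (Set ℕ)) : Prop where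
  left : ∀ X ∈ A, X ∈ I
  right : ∀ X ∈ B, X ∈ I
  disj : ∀ X ∈ A, X ∉ B

/-- `I` is an independent family of infinite subsets of `ℕ`. -/
def Independent (I : Set (Set ℕ)) : Prop :=
  (∀ X ∈ I, X.Infinite) ∧ ∀ A B, IsFF I A B → (cell A B).Infinite

/-- `I` is densely maximal. -/
def DenselyMaximal (I : Set (Set ℕ)) : Prop :=
  ∀ X : Set ℕ, X.Infinite → ∀ A B, IsFF I A B →
    ∃ A' B', A ⊆ A' ∧ B ⊆ B' ∧ IsFF I A' B' ∧ ((cell A' B' \ X).Finite ∨ (cell A' B' ∩ X).Finite)

/-- The density filter of `I`. -/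
def densityFilter (I : Set (Set ℕ)) : Set (Set ℕ) :=
  {X | X.Infinite ∧ ∀ A B, IsFF I A B →
    ∃ A' B', A ⊆ A' ∧ B ⊆ B' ∧ IsFF I A' B' ∧ (cell A' B' \ X).Finite}

/-- `F` is a P-set: each sequence of members of `F` has a pseudo-intersection in `F`. -/
def PSet (F : Set (Set ℕ)) : Prop :=
  ∀ A : ℕ → Set ℕ, (∀ n, A n ∈ F) → ∃ B ∈ F, ∀ n, (B \ A n).Finite

/-- `F` is a Q-set: each partition of `ℕ` into finite sets has a partial selector in `F`. -/
def QSet (F : Set (Set ℕ)) : Prop :=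
  ∀ P : ℕ → Set ℕ, (∀ n, (P n).Finite) → (∀ m, ∃! n, m ∈ P n) →
    ∃ B ∈ F, ∀ n, (B ∩ P n).Subsingleton

/-- `I` is a selective independent family. -/
def Selective (I : Set (Set ℕ)) : Prop :=
  Independent I ∧ DenselyMaximal I ∧ PSet (densityFilter I) ∧ QSet (densityFilter I)

/-- Martin's axiom for Cohen forcing (`cov(M) = 𝔠`): for each family of fewer than `𝔠` dense
subsets of the set of finite sequences of natural numbers, there is an infinite sequence with an
initial segment in each member of the family. -/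
def CohenMA : Prop :=
  ∀ 𝓓 : Set (Set (List ℕ)), #𝓓 < 𝔠 → (∀ D ∈ 𝓓, ∀ s, ∃ t ∈ D, s <+: t) →
    ∃ x : ℕ → ℕ, ∀ D ∈ 𝓓, ∃ n, (List.range n).map x ∈ D

/-! ### The states of the construction -/

/-- the members of the independent family at a state -/
def IS (S : Set (Bool × Set ℕ)) : Set (Set ℕ) := {X | (true, X) ∈ S}

/-- the members of the filter at a state -/
def FS (S : Set (Bool × Set ℕ)) : Set (Set ℕ) := {X | (false, X) ∈ S}

/-- the intersection of a finite family -/
def inter (G : Finset (Set ℕ)) : Set ℕ := {n | ∀ X ∈ G, n ∈ X}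

/-- a state is good -/
def Good (S : Set (Bool × Set ℕ)) : Prop :=
  ∀ A B G : Finset (Set ℕ), IsFF (IS S) A B → (∀ X ∈ G, X ∈ FS S) → (cell A B ∩ inter G).Infinite

/-- the sets which have to be met -/
def Pos (S : Set (Bool × Set ℕ)) : Set (Set ℕ) :=
  {Z | ∃ A B G : Finset (Set ℕ), IsFF (IS S) A B ∧ (∀ X ∈ G, X ∈ FS S) ∧ Z = cell A B ∩ inter G}

theorem mk_Pos_lt {S : Set (Bool × Set ℕ)} (hS : #S < 𝔠) : #(Pos S) < 𝔠 := by
  classical
  let g : (Finset S × Finset S) × Finset S → Set ℕ := fun p =>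
    cell (p.1.1.image fun a => a.1.2) (p.1.2.image fun a => a.1.2) ∩
      inter (p.2.image fun a => a.1.2)
  have hsub : Pos S ⊆ range g := by
    rintro Z ⟨A, B, G, hAB, hG, rfl⟩
    have key : ∀ (b : Bool) (A : Finset (Set ℕ)), (∀ X ∈ A, (b, X) ∈ S) →
        ∃ A' : Finset S, (A'.image fun a => a.1.2) = A := by
      intro b A hA
      refine ⟨A.attach.image fun X => ⟨(b, X.1), hA X.1 X.2⟩, ?_⟩
      ext X
      simp only [Finset.mem_image, Finset.mem_attach, true_and, Subtype.exists]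
      constructor
      · rintro ⟨a, ha, ⟨Y, hY, hYa⟩, rfl⟩
        have := congrArg Subtype.val hYa
        simp only at this
        rw [← this]
        exact hY
      · intro hX
        exact ⟨(b, X), hA X hX, ⟨X, hX, rfl⟩, rfl⟩
    obtain ⟨A', hA'⟩ := key true A hAB.left
    obtain ⟨B', hB'⟩ := key true B hAB.right
    obtain ⟨G', hG'⟩ := key false G hG
    exact ⟨((A', B'), G'), by simp only [g, hA', hB', hG']⟩
  refine ((mk_le_mk_of_subset hsub).trans mk_range_le).trans_lt ?_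
  have hF : #(Finset S) < 𝔠 := by
    rcases finite_or_infinite S with h | h
    · exact (lt_aleph0_of_finite _).trans aleph0_lt_continuum
    · rw [mk_finset_of_infinite]
      exact hS
  rw [mk_prod, mk_prod]
  simp only [Cardinal.lift_id]
  exact mul_lt_of_lt aleph0_le_continuum (mul_lt_of_lt aleph0_le_continuum hF hF) hF

theorem generic (hC : CohenMA) {ι : Type} (hι : #ι < 𝔠) (Φ : ι → ℕ → List ℕ → Prop)
    (h : ∀ i N s, ∃ m ≥ N, ∃ t, s <+: t ∧ Φ i m t) :
    ∃ x : ℕ → ℕ, ∀ i N, ∃ m ≥ N, ∃ n, Φ i m ((List.range n).map x) := by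
  obtain ⟨x, hx⟩ := hC (range fun p : ι × ℕ => {t | ∃ m ≥ p.2, Φ p.1 m t}) (by
    refine mk_range_le.trans_lt ?_
    rw [mk_prod]
    simp only [Cardinal.lift_id, mk_nat]
    exact mul_lt_of_lt aleph0_le_continuum hι aleph0_lt_continuum) (by
    rintro _ ⟨⟨i, N⟩, rfl⟩ s
    obtain ⟨m, hm, t, hst, ht⟩ := h i N s
    exact ⟨t, ⟨m, hm, ht⟩, hst⟩)
  refine ⟨x, fun i N => ?_⟩
  obtain ⟨n, m, hm, h'⟩ := hx _ ⟨(i, N), rfl⟩
  exact ⟨m, hm, n, h'⟩

theorem good_insert_F {S : Set (Bool × Set ℕ)} {Y : Set ℕ} (h : ∀ Z ∈ Pos S, (Z ∩ Y).Infinite) :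
    Good (insert (false, Y) S) := by
  classical
  intro A B G hAB hG
  have hAB' : IsFF (IS S) A B := by
    refine ⟨fun X hX => ?_, fun X hX => ?_, hAB.disj⟩
    · rcases hAB.left X hX with h | h
      · simp at h
      · exact h
    · rcases hAB.right X hX with h | h
      · simp at h
      · exact h
  have h1 := h _ ⟨A, B, G.erase Y, hAB', fun X hX => ?_, rfl⟩
  · refine h1.mono ?_
    rintro n ⟨⟨h2, h3⟩, h4⟩
    refine ⟨h2, fun X hX => ?_⟩
    by_cases hXY : X = Y
    · rw [hXY]; exact h4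
    · exact h3 X (Finset.mem_erase.2 ⟨hXY, hX⟩)
  · rw [Finset.mem_erase] at hX
    rcases hG X hX.2 with h | h
    · simp only [Prod.mk.injEq, true_and] at h
      exact absurd h hX.1
    · exact h

theorem good_insert_I {S : Set (Bool × Set ℕ)} {X' : Set ℕ}
    (h : ∀ Z ∈ Pos S, (Z ∩ X').Infinite ∧ (Z \ X').Infinite) :
    Good (insert (true, X') S) := by
  classical
  intro A B G hAB hG
  have hG' : ∀ X ∈ G, X ∈ FS S := by
    intro X hX
    rcases hG X hX with h | h
    · simp at h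
    · exact h
  have hAB' : IsFF (IS S) (A.erase X') (B.erase X') := by
    refine ⟨fun X hX => ?_, fun X hX => ?_, fun X hX hX' => ?_⟩
    · rw [Finset.mem_erase] at hX
      rcases hAB.left X hX.2 with h | h
      · simp only [Prod.mk.injEq, true_and] at h
        exact absurd h hX.1
      · exact h
    · rw [Finset.mem_erase] at hX
      rcases hAB.right X hX.2 with h | h
      · simp only [Prod.mk.injEq, true_and] at h
        exact absurd h hX.1
      · exact h
    · exact hAB.disj X (Finset.mem_of_mem_erase hX) (Finset.mem_of_mem_erase hX')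
  obtain ⟨h1, h2⟩ := h _ ⟨_, _, G, hAB', hG', rfl⟩
  by_cases hA : X' ∈ A
  · refine h1.mono ?_
    rintro n ⟨⟨⟨h3, h3'⟩, h4⟩, h5⟩
    refine ⟨⟨fun X hX => ?_, fun X hX => ?_⟩, h4⟩
    · by_cases hXX : X = X'
      · rw [hXX]; exact h5
      · exact h3 X (Finset.mem_erase.2 ⟨hXX, hX⟩)
    · refine h3' X (Finset.mem_erase.2 ⟨?_, hX⟩)
      rintro rfl
      exact hAB.disj X hA hX
  · refine h2.mono ?_
    rintro n ⟨⟨⟨h3, h3'⟩, h4⟩, h5⟩
    refine ⟨⟨fun X hX => ?_, fun X hX => ?_⟩, h4⟩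
    · refine h3 X (Finset.mem_erase.2 ⟨?_, hX⟩)
      rintro rfl
      exact hA hX
    · by_cases hXX : X = X'
      · rw [hXX]; exact h5
      · exact h3' X (Finset.mem_erase.2 ⟨hXX, hX⟩)

/-! ### The tasks -/

/-- the indices of the cells in which `X` is finite on some member of the filter -/
def K (S : Set (Bool × Set ℕ)) (X : Set ℕ) : Set (Finset (Set ℕ) × Finset (Set ℕ)) :=
  {p | IsFF (IS S) p.1 p.2 ∧
    ∃ G : Finset (Set ℕ), (∀ Y ∈ G, Y ∈ FS S) ∧ (cell p.1 p.2 ∩ inter G ∩ X).Finite}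

/-- the set added for `X` -/
def fill (S : Set (Bool × Set ℕ)) (X : Set ℕ) : Set ℕ := {n | n ∈ X ∨ ∃ p ∈ K S X, n ∈ cell p.1 p.2}

/-- the item `a` does the task `t` at the state `S` -/
def Does (t : Fin 4 × (ℕ → Set ℕ)) (S : Set (Bool × Set ℕ)) (a : Bool × Set ℕ) : Prop :=
  (t.1 = 0 → a = (false, fill S (t.2 0))) ∧
  (t.1 = 1 → t.2 0 ∈ FS S → a.1 = true ∧ a.2 ⊆ t.2 0 ∧ a.2 ∉ IS S) ∧
  (t.1 = 2 → (∀ n, t.2 n ∈ FS S) → a.1 = false ∧ ∀ n, (a.2 \ t.2 n).Finite) ∧
  (t.1 = 3 → (∀ n, (t.2 n).Finite) → (∀ m, ∃! n, m ∈ t.2 n) →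
    a.1 = false ∧ ∀ n, (a.2 ∩ t.2 n).Subsingleton)

theorem Good.pos {S : Set (Bool × Set ℕ)} (h : Good S) {Z : Set ℕ} (hZ : Z ∈ Pos S) :
    Z.Infinite := by
  obtain ⟨A, B, G, h1, h2, rfl⟩ := hZ
  exact h A B G h1 h2

theorem pos_inter {S : Set (Bool × Set ℕ)} {Z Y : Set ℕ} (hZ : Z ∈ Pos S) (hY : Y ∈ FS S) :
    Z ∩ Y ∈ Pos S := by
  classical
  obtain ⟨A, B, G, h1, h2, rfl⟩ := hZ
  refine ⟨A, B, insert Y G, h1, fun X hX => ?_, ?_⟩
  · rcases Finset.mem_insert.1 hX with rfl | h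
    · exact hY
    · exact h2 X h
  · ext n
    constructor
    · rintro ⟨⟨h3, h4⟩, h5⟩
      refine ⟨h3, fun X hX => ?_⟩
      rcases Finset.mem_insert.1 hX with rfl | h
      · exact h5
      · exact h4 X h
    · rintro ⟨h3, h4⟩
      exact ⟨⟨h3, fun X hX => h4 X (Finset.mem_insert_of_mem hX)⟩, h4 Y (Finset.mem_insert_self _ _)⟩

theorem good_fill {S : Set (Bool × Set ℕ)} (h : Good S) (X : Set ℕ) :
    Good (insert (false, fill S X) S) := by
  apply good_insert_F
  rintro Z ⟨A, B, G, h1, h2, rfl⟩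
  by_cases hK : (A, B) ∈ K S X
  · refine (h A B G h1 h2).mono fun n hn => ⟨hn, Or.inr ⟨_, hK, hn.1⟩⟩
  · have h3 : (cell A B ∩ inter G ∩ X).Infinite := by
      intro hfin
      exact hK ⟨h1, G, h2, hfin⟩
    exact h3.mono fun n hn => ⟨hn.1, Or.inl hn.2⟩

theorem infinite_of {Z : Set ℕ} (h : ∀ N, ∃ m ≥ N, m ∈ Z) : Z.Infinite :=
  infinite_of_forall_exists_gt fun N => by
    obtain ⟨m, hm, h'⟩ := h (N + 1)
    exact ⟨m, h', hm⟩

theorem exists_ge {Z : Set ℕ} (h : Z.Infinite) (N : ℕ) : ∃ m ≥ N, m ∈ Z := by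
  obtain ⟨m, h1, h2⟩ := h.exists_gt N
  exact ⟨m, h2.le, h1⟩

/-- the values of a list -/
theorem val_of {x : ℕ → ℕ} {n m a : ℕ} (h : ((List.range n).map x)[m]? = some a) :
    m < n ∧ x m = a := by
  rcases lt_or_ge m n with h1 | h1
  · refine ⟨h1, ?_⟩
    simpa [h1] using h
  · simp [h1] at h

theorem exists_split (hC : CohenMA) {S : Set (Bool × Set ℕ)} (h : Good S) (hS : #S < 𝔠)
    {Y : Set ℕ} (hY : Y ∈ FS S) :
    ∃ X' : Set ℕ, X' ⊆ Y ∧ X' ∉ IS S ∧ Good (insert (true, X') S) := by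
  classical
  obtain ⟨x, hx⟩ := generic hC (ι := Pos S × Bool) (by
    rw [mk_prod]
    simp only [Cardinal.lift_id]
    exact mul_lt_of_lt aleph0_le_continuum (mk_Pos_lt hS)
      ((lt_aleph0_of_finite _).trans aleph0_lt_continuum))
    (fun i m t => m ∈ i.1.1 ∩ Y ∧ t[m]? = some (if i.2 then 0 else 1)) (by
    rintro ⟨⟨Z, hZ⟩, b⟩ N s
    obtain ⟨m, hm, hmZ⟩ := exists_ge (h.pos (pos_inter hZ hY)) (max N s.length)
    refine ⟨m, (le_max_left _ _).trans hm,
      s ++ List.replicate (m + 1 - s.length) (if b then 0 else 1), List.prefix_append _ _, hmZ, ?_⟩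
    have h2 : s.length ≤ m := (le_max_right _ _).trans hm
    rw [List.getElem?_append_right h2, List.getElem?_replicate, if_pos (by omega)])
  let X' : Set ℕ := {m | m ∈ Y ∧ x m = 0}
  have key : ∀ Z ∈ Pos S, (Z ∩ X').Infinite ∧ (Z \ X').Infinite := by
    intro Z hZ
    constructor
    · apply infinite_of
      intro N
      obtain ⟨m, hm, n, h1, h2⟩ := hx (⟨Z, hZ⟩, true) N
      refine ⟨m, hm, h1.1, h1.2, ?_⟩
      exact (val_of h2).2
    · apply infinite_of
      intro N
      obtain ⟨m, hm, n, h1, h2⟩ := hx (⟨Z, hZ⟩, false) N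
      refine ⟨m, hm, h1.1, fun h3 => ?_⟩
      have h4 := (val_of h2).2
      rw [h3.2] at h4
      simp at h4
  refine ⟨X', fun m hm => hm.1, fun hX' => ?_, good_insert_I key⟩
  have h1 := (key (cell {X'} ∅ ∩ inter ∅) ⟨{X'}, ∅, ∅, ⟨fun X hX => ?_, fun X hX => ?_,
    fun X _ => Finset.notMem_empty _⟩, fun X hX => ?_, rfl⟩).2
  · apply h1
    convert Set.finite_empty
    rw [Set.eq_empty_iff_forall_notMem]
    rintro m ⟨hm, hm'⟩
    exact hm' (hm.1.1 X' (Finset.mem_singleton_self _))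
  · rw [Finset.mem_singleton.1 hX]; exact hX'
  · exact absurd hX (Finset.notMem_empty _)
  · exact absurd hX (Finset.notMem_empty _)

theorem exists_pseudo (hC : CohenMA) {S : Set (Bool × Set ℕ)} (h : Good S) (hS : #S < 𝔠)
    {A : ℕ → Set ℕ} (hA : ∀ n, A n ∈ FS S) :
    ∃ B : Set ℕ, (∀ n, (B \ A n).Finite) ∧ Good (insert (false, B) S) := by
  classical
  obtain ⟨x, hx⟩ := generic hC (ι := Pos S) (mk_Pos_lt hS)
    (fun Z m t => m ∈ Z.1 ∧ m < t.length ∧ ∀ k ≤ m, ∀ a, t[k]? = some a → a ≤ m → m ∈ A k) (by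
    rintro ⟨Z, hZ⟩ N s
    have hfin : ∀ l : ℕ, ∃ Z' ∈ Pos S, Z' ⊆ Z ∧ ∀ k < l, Z' ⊆ A k := by
      intro l
      induction l with
      | zero => exact ⟨Z, hZ, Subset.rfl, fun k hk => absurd hk (Nat.not_lt_zero _)⟩
      | succ l ih =>
        obtain ⟨Z', h1, h2, h3⟩ := ih
        refine ⟨Z' ∩ A l, pos_inter h1 (hA l), inter_subset_left.trans h2, fun k hk => ?_⟩
        rcases Nat.lt_succ_iff_lt_or_eq.1 hk with h4 | rfl
        · exact inter_subset_left.trans (h3 k h4)
        · exact inter_subset_right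
    obtain ⟨Z', h1, h2, h3⟩ := hfin s.length
    obtain ⟨m, hm, hmZ⟩ := exists_ge (h.pos h1) (max N s.length)
    have h4 : s.length ≤ m := (le_max_right _ _).trans hm
    refine ⟨m, (le_max_left _ _).trans hm,
      s ++ List.replicate (m + 1 - s.length) (m + 1), List.prefix_append _ _, h2 hmZ, ?_, ?_⟩
    · simp only [List.length_append, List.length_replicate]
      omega
    · intro k hk a ha ham
      rcases lt_or_ge k s.length with h5 | h5
      · exact h3 k h5 hmZ
      · rw [List.getElem?_append_right h5, List.getElem?_replicate, if_pos (by omega)] at ha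
        simp only [Option.some.injEq] at ha
        omega)
  let B : Set ℕ := {m | ∀ k ≤ m, x k ≤ m → m ∈ A k}
  refine ⟨B, fun n => ?_, good_insert_F fun Z hZ => infinite_of fun N => ?_⟩
  · refine (Set.finite_lt_nat (max n (x n))).subset ?_
    rintro m ⟨hm, hm'⟩
    by_contra hcon
    simp only [Set.mem_ofPred_eq, not_lt, max_le_iff] at hcon
    exact hm' (hm n hcon.1 hcon.2)
  · obtain ⟨m, hm, n, h1, h2, h3⟩ := hx ⟨Z, hZ⟩ N
    refine ⟨m, hm, h1, fun k hk hxk => h3 k hk (x k) ?_ hxk⟩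
    have : k < n := by
      simp only [List.length_map, List.length_range] at h2
      omega
    simp [this]

theorem exists_selector (hC : CohenMA) {S : Set (Bool × Set ℕ)} (h : Good S) (hS : #S < 𝔠)
    {P : ℕ → Set ℕ} (hP : ∀ n, (P n).Finite) (hP' : ∀ m, ∃! n, m ∈ P n) :
    ∃ B : Set ℕ, (∀ n, (B ∩ P n).Subsingleton) ∧ Good (insert (false, B) S) := by
  classical
  choose i hi hi' using hP'
  obtain ⟨x, hx⟩ := generic hC (ι := Pos S) (mk_Pos_lt hS)
    (fun Z m t => m ∈ Z.1 ∧ t[i m]? = some m) (by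
    rintro ⟨Z, hZ⟩ N s
    have h1 : (Z \ ⋃ n ∈ Finset.range s.length, P n).Infinite :=
      (h.pos hZ).sdiff (Set.Finite.biUnion (Finset.finite_toSet _) fun n _ => hP n)
    obtain ⟨m, hm, hmZ⟩ := exists_ge h1 N
    have h2 : s.length ≤ i m := by
      by_contra hcon
      exact hmZ.2 (mem_biUnion (Finset.mem_coe.2 (Finset.mem_range.2 (not_le.1 hcon))) (hi m))
    refine ⟨m, hm, s ++ List.replicate (i m + 1 - s.length) m, List.prefix_append _ _, hmZ.1, ?_⟩
    rw [List.getElem?_append_right h2, List.getElem?_replicate, if_pos (by omega)])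
  refine ⟨{m | x (i m) = m}, fun n => ?_, good_insert_F fun Z hZ => infinite_of fun N => ?_⟩
  · rintro a ⟨ha, han⟩ b ⟨hb, hbn⟩
    have h1 : n = i a := hi' a n han
    have h2 : n = i b := hi' b n hbn
    simp only [Set.mem_ofPred_eq] at ha hb
    rw [← ha, ← hb, ← h1, ← h2]
  · obtain ⟨m, hm, n, h1, h2⟩ := hx ⟨Z, hZ⟩ N
    exact ⟨m, hm, h1, (val_of h2).2⟩

theorem good_univ {S : Set (Bool × Set ℕ)} (h : Good S) : Good (insert (false, Set.univ) S) :=
  good_insert_F fun Z hZ => by rw [inter_univ]; exact h.pos hZ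

theorem exists_step (hC : CohenMA) (S : Set (Bool × Set ℕ)) (h : Good S) (hS : #S < 𝔠)
    (t : Fin 4 × (ℕ → Set ℕ)) : ∃ a, Good (insert a S) ∧ Does t S a := by
  obtain ⟨k, A⟩ := t
  have h01 : (0 : Fin 4) ≠ 1 := by decide
  have h02 : (0 : Fin 4) ≠ 2 := by decide
  have h03 : (0 : Fin 4) ≠ 3 := by decide
  have h12 : (1 : Fin 4) ≠ 2 := by decide
  have h13 : (1 : Fin 4) ≠ 3 := by decide
  have h23 : (2 : Fin 4) ≠ 3 := by decide
  rcases (show k = 0 ∨ k = 1 ∨ k = 2 ∨ k = 3 by fin_cases k <;> simp) with rfl | rfl | rfl | rfl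
  · exact ⟨_, good_fill h (A 0), fun _ => rfl, fun h' => absurd h' h01, fun h' => absurd h' h02,
      fun h' => absurd h' h03⟩
  · by_cases hY : A 0 ∈ FS S
    · obtain ⟨X', h1, h2, h3⟩ := exists_split hC h hS hY
      exact ⟨_, h3, fun h' => absurd h' h01.symm, fun _ _ => ⟨rfl, h1, h2⟩,
        fun h' => absurd h' h12, fun h' => absurd h' h13⟩
    · exact ⟨_, good_univ h, fun h' => absurd h' h01.symm, fun _ h' => absurd h' hY,
        fun h' => absurd h' h12, fun h' => absurd h' h13⟩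
  · by_cases hY : ∀ n, A n ∈ FS S
    · obtain ⟨B, h1, h2⟩ := exists_pseudo hC h hS hY
      exact ⟨_, h2, fun h' => absurd h' h02.symm, fun h' => absurd h' h12.symm,
        fun _ _ => ⟨rfl, h1⟩, fun h' => absurd h' h23⟩
    · exact ⟨_, good_univ h, fun h' => absurd h' h02.symm, fun h' => absurd h' h12.symm,
        fun _ h' => absurd h' hY, fun h' => absurd h' h23⟩
  · by_cases hY : (∀ n, (A n).Finite) ∧ ∀ m, ∃! n, m ∈ A n
    · obtain ⟨B, h1, h2⟩ := exists_selector hC h hS hY.1 hY.2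
      exact ⟨_, h2, fun h' => absurd h' h03.symm, fun h' => absurd h' h13.symm,
        fun h' => absurd h' h23.symm, fun _ _ _ => ⟨rfl, h1⟩⟩
    · exact ⟨_, good_univ h, fun h' => absurd h' h03.symm, fun h' => absurd h' h13.symm,
        fun h' => absurd h' h23.symm, fun _ h1 h2 => absurd ⟨h1, h2⟩ hY⟩

/-! ### The recursion -/

section

variable {Λ : Type} [LinearOrder Λ] [WellFoundedLT Λ] (task : Λ → Fin 4 × (ℕ → Set ℕ))

/-- the item chosen for a task at a state -/
noncomputable def pick (t : Fin 4 × (ℕ → Set ℕ)) (S : Set (Bool × Set ℕ)) : Bool × Set ℕ :=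
  open Classical in
  if h : ∃ a, Good (insert a S) ∧ Does t S a then h.choose else (false, Set.univ)

/-- the items -/
noncomputable def item : Λ → Bool × Set ℕ :=
  wellFounded_lt.fix fun γ ih => pick (task γ) {a | ∃ β, ∃ h : β < γ, ih β h = a}

/-- the state at stage `γ` -/
def state (γ : Λ) : Set (Bool × Set ℕ) := item task '' Iio γ

theorem item_eq (γ : Λ) : item task γ = pick (task γ) (state task γ) := by
  rw [item, WellFounded.fix_eq]
  congr 1
  ext a
  simp only [Set.mem_ofPred_eq, state, Set.mem_image, Set.mem_Iio, exists_prop]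
  rfl

theorem good_empty : Good ∅ := by
  intro A B G hAB hG
  have hA : A = ∅ := Finset.eq_empty_of_forall_notMem fun X hX => hAB.left X hX
  have hB : B = ∅ := Finset.eq_empty_of_forall_notMem fun X hX => hAB.right X hX
  have hG' : G = ∅ := Finset.eq_empty_of_forall_notMem fun X hX => hG X hX
  subst hA hB hG'
  have : cell ∅ ∅ ∩ inter ∅ = Set.univ := by
    ext n
    simp [cell, inter]
  rw [this]
  exact Set.infinite_univ

/-- a finite family of members of a union of a chain lies in one of the members of the chain -/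
theorem good_of_chain {ι : Type} [LinearOrder ι] [Nonempty ι] (S : ι → Set (Bool × Set ℕ))
    (hmono : Monotone S) (hS : ∀ i, Good (S i)) : Good (⋃ i, S i) := by
  classical
  intro A B G hAB hG
  have key : ∀ T : Finset (Bool × Set ℕ), (∀ a ∈ T, a ∈ ⋃ i, S i) → ∃ i, ∀ a ∈ T, a ∈ S i := by
    intro T
    induction T using Finset.induction_on with
    | empty => intro _; exact ⟨Classical.arbitrary ι, fun a ha => absurd ha (Finset.notMem_empty _)⟩
    | insert a T _ ih =>
      intro hT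
      obtain ⟨i, hi⟩ := ih fun b hb => hT b (Finset.mem_insert_of_mem hb)
      obtain ⟨j, hj⟩ := mem_iUnion.1 (hT a (Finset.mem_insert_self _ _))
      refine ⟨max i j, fun b hb => ?_⟩
      rcases Finset.mem_insert.1 hb with rfl | hb
      · exact hmono (le_max_right _ _) hj
      · exact hmono (le_max_left _ _) (hi b hb)
  obtain ⟨i, hi⟩ := key (A.image (fun X => (true, X)) ∪ B.image (fun X => (true, X)) ∪
    G.image (fun X => (false, X))) (by
    intro a ha
    simp only [Finset.mem_union, Finset.mem_image] at ha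
    rcases ha with (⟨X, hX, rfl⟩ | ⟨X, hX, rfl⟩) | ⟨X, hX, rfl⟩
    · exact hAB.left X hX
    · exact hAB.right X hX
    · exact hG X hX)
  refine hS i A B G ⟨fun X hX => hi _ ?_, fun X hX => hi _ ?_, hAB.disj⟩ fun X hX => hi _ ?_
  · simp only [Finset.mem_union, Finset.mem_image]
    exact Or.inl (Or.inl ⟨X, hX, rfl⟩)
  · simp only [Finset.mem_union, Finset.mem_image]
    exact Or.inl (Or.inr ⟨X, hX, rfl⟩)
  · simp only [Finset.mem_union, Finset.mem_image]
    exact Or.inr ⟨X, hX, rfl⟩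

theorem state_mono : Monotone (state task) := fun _ _ h => image_mono (Iio_subset_Iio h)

theorem mk_state_lt (hΛ : ∀ γ : Λ, #(Iio γ) < 𝔠) (γ : Λ) : #(state task γ) < 𝔠 :=
  mk_image_le.trans_lt (hΛ γ)

theorem good_state (hC : CohenMA) (hΛ : ∀ γ : Λ, #(Iio γ) < 𝔠) (γ : Λ) :
    Good (state task γ) ∧ Good (insert (item task γ) (state task γ)) ∧
      Does (task γ) (state task γ) (item task γ) := by
  induction γ using WellFoundedLT.induction with
  | ind γ ih =>
    have h1 : Good (state task γ) := by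
      rcases isEmpty_or_nonempty (Iio γ) with he | hne
      · have : state task γ = ∅ := by
          rw [state, Set.isEmpty_coe_sort.1 he, image_empty]
        rw [this]
        exact good_empty
      · have : state task γ =
            ⋃ β : Iio γ, insert (item task β.1) (state task β.1) := by
          ext a
          simp only [mem_iUnion, Subtype.exists, mem_Iio]
          constructor
          · rintro ⟨β, hβ, rfl⟩
            exact ⟨β, hβ, Or.inl rfl⟩
          · rintro ⟨β, hβ, rfl | h⟩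
            · exact ⟨β, hβ, rfl⟩
            · exact state_mono task (le_of_lt hβ) h
        rw [this]
        refine good_of_chain _ ?_ fun β => (ih β.1 β.2).2.1
        rintro ⟨β, hβ⟩ ⟨β', hβ'⟩ hle a ha
        have hle' : β ≤ β' := hle
        rcases hle'.eq_or_lt with rfl | hlt
        · exact ha
        · refine Or.inr ?_
          rcases ha with rfl | ha
          · exact ⟨β, hlt, rfl⟩
          · exact state_mono task hle' ha
    have h2 := exists_step hC (state task γ) h1 (mk_state_lt task hΛ γ) (task γ)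
    have h3 : item task γ = h2.choose := by
      rw [item_eq, pick, dif_pos h2]
    refine ⟨h1, ?_, ?_⟩
    · rw [h3]; exact h2.choose_spec.1
    · have := h2.choose_spec.2
      rw [← h3] at this
      exact this

end

end Pool.Agent.H458R4.Sel
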