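import Pool.Agent.H458R4.Sel

/-!
# Selective independent families from `cov(M) = 𝔠`: the end of the proof
-/

namespace Pool.Agent.H458R4.Sel

open Cardinal Set

theorem exists_length : ∃ (Λ : Type) (_ : LinearOrder Λ), WellFoundedLT Λ ∧ Nonempty Λ ∧
    #Λ = 𝔠 ∧ (∀ γ : Λ, #(Iio γ) < 𝔠) ∧
    ∀ C : Set Λ, C.Countable → ∃ b, ∀ c ∈ C, c < b := by
  refine ⟨(𝔠 : Cardinal.{0}).ord.ToType, inferInstance, inferInstance, ?_,
    Cardinal.mk_ord_toType _, fun γ => Cardinal.mk_Iio_toType_ord_lt γ, fun C hC => ?_⟩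
  · rw [← mk_ne_zero_iff, Cardinal.mk_ord_toType]
    exact continuum_ne_zero
  · by_contra hcon
    push Not at hcon
    have h2 : IsCofinal C := fun b => by
      obtain ⟨s, hs, hb⟩ := hcon b
      exact ⟨s, hs, hb⟩
    have h3 := Order.cof_le h2
    rw [Ordinal.cof_toType] at h3
    have h4 : ℵ₀ < (𝔠 : Cardinal.{0}).ord.cof := by
      rw [← two_power_aleph0]
      exact lt_cof_ord_power le_rfl (one_lt_two)
    exact absurd (h3.trans hC.le_aleph0) (not_le.2 h4)

theorem mk_task : #(Fin 4 × (ℕ → Set ℕ)) = 𝔠 := by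
  rw [mk_prod]
  simp only [Cardinal.lift_id, mk_fin, mk_pi, mk_set, mk_nat, two_power_aleph0, prod_const,
    continuum_power_aleph0]
  exact mul_eq_right aleph0_le_continuum (nat_lt_aleph0 4 |>.le.trans aleph0_le_continuum)
    (by norm_num)

theorem exists_task {Λ : Type} [LinearOrder Λ] (hΛ : #Λ = 𝔠) (hΛ' : ∀ γ : Λ, #(Iio γ) < 𝔠) :
    ∃ task : Λ → Fin 4 × (ℕ → Set ℕ), ∀ t β, ∃ γ, β ≤ γ ∧ task γ = t := by
  have h1 : #Λ = #(Λ × (Fin 4 × (ℕ → Set ℕ))) := by
    rw [mk_prod, Cardinal.lift_id, Cardinal.lift_id, mk_task, hΛ, continuum_mul_self]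
  obtain ⟨e⟩ := Cardinal.eq.1 h1
  refine ⟨fun γ => (e γ).2, fun t β => ?_⟩
  by_contra hcon
  push Not at hcon
  have h2 : ∀ l : Λ, e.symm (l, t) ∈ Iio β := by
    intro l
    by_contra h
    exact hcon (e.symm (l, t)) (not_lt.1 h) (by rw [Equiv.apply_symm_apply])
  have h3 : #Λ ≤ #(Iio β) := by
    refine mk_le_of_injective (f := fun l => (⟨e.symm (l, t), h2 l⟩ : Iio β)) ?_
    intro l l' hl
    have h4 := e.symm.injective (congrArg Subtype.val hl)
    exact (Prod.mk.inj h4).1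
  rw [hΛ] at h3
  exact absurd (hΛ' β) (not_lt.2 h3)

/-- **Theorem.** If `cov(M) = 𝔠` then there is a selective independent family. -/
theorem exists_selective (hC : CohenMA) : ∃ I, Selective I := by
  classical
  obtain ⟨Λ, _, _, _, hΛ1, hΛ2, hΛ3⟩ := exists_length
  obtain ⟨task, htask⟩ := exists_task hΛ1 hΛ2
  have hgs := good_state task hC hΛ2
  set SS : Set (Bool × Set ℕ) := ⋃ γ, state task γ with hSS
  have hgood : Good SS := good_of_chain _ (state_mono task) fun γ => (hgs γ).1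
  have hitem : ∀ γ, item task γ ∈ SS := by
    intro γ
    obtain ⟨b, hb⟩ := hΛ3 {γ} (Set.countable_singleton _)
    exact mem_iUnion.2 ⟨b, γ, hb γ rfl, rfl⟩
  have hsub : ∀ γ, state task γ ⊆ SS := fun γ => subset_iUnion _ γ
  have hbd : ∀ C : Set (Bool × Set ℕ), C.Countable → C ⊆ SS → ∃ β, C ⊆ state task β := by
    intro C hC hCS
    have h1 : ∀ a : C, ∃ γ, a.1 ∈ state task γ := fun a => mem_iUnion.1 (hCS a.2)
    choose g hg using h1
    have hCc : Countable C := hC
    obtain ⟨b, hb⟩ := hΛ3 (range g) (countable_range g)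
    exact ⟨b, fun a ha => state_mono task (hb _ ⟨⟨a, ha⟩, rfl⟩).le (hg ⟨a, ha⟩)⟩
  -- a late stage with a given task and containing given finite families
  have hstage : ∀ (A B : Finset (Set ℕ)) (C : Set (Set ℕ)), IsFF (IS SS) A B → C.Countable →
      C ⊆ FS SS → ∀ t, ∃ γ, task γ = t ∧ IsFF (IS (state task γ)) A B ∧
        C ⊆ FS (state task γ) := by
    intro A B C hAB hCc hCS t
    obtain ⟨β, hβ⟩ := hbd ((fun X => (true, X)) '' (A : Set (Set ℕ)) ∪
      (fun X => (true, X)) '' (B : Set (Set ℕ)) ∪ (fun X => (false, X)) '' C)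
      (((A.countable_toSet.image _).union (B.countable_toSet.image _)).union (hCc.image _)) (by
        rintro a ((⟨X, hX, rfl⟩ | ⟨X, hX, rfl⟩) | ⟨X, hX, rfl⟩)
        · exact hAB.left X hX
        · exact hAB.right X hX
        · exact hCS hX)
    obtain ⟨γ, hγ, hγt⟩ := htask t β
    have h1 := hβ.trans (state_mono task hγ)
    exact ⟨γ, hγt, ⟨fun X hX => h1 (Or.inl (Or.inl ⟨X, hX, rfl⟩)),
      fun X hX => h1 (Or.inl (Or.inr ⟨X, hX, rfl⟩)), hAB.disj⟩,
      fun X hX => h1 (Or.inr ⟨X, hX, rfl⟩)⟩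
  -- members of the filter contain cells
  have hfil : ∀ Y ∈ FS SS, ∀ A B, IsFF (IS SS) A B → ∃ A' B', A ⊆ A' ∧ B ⊆ B' ∧
      IsFF (IS SS) A' B' ∧ cell A' B' ⊆ Y := by
    intro Y hY A B hAB
    obtain ⟨γ, hγt, hAB', hY'⟩ := hstage A B {Y} hAB (countable_singleton _)
      (singleton_subset_iff.2 hY) (1, fun _ => Y)
    obtain ⟨_, h1, _, _⟩ := (hgs γ).2.2
    rw [hγt] at h1
    obtain ⟨h2, h3, h4⟩ := h1 rfl (hY' rfl)
    have h5 : (true, (item task γ).2) ∈ SS := by
      have h6 : (true, (item task γ).2) = item task γ := by rw [← h2]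
      rw [h6]
      exact hitem γ
    refine ⟨insert (item task γ).2 A, B, Finset.subset_insert _ _, Finset.Subset.refl _,
      ⟨fun X hX => ?_, hAB.right, fun X hX hXB => ?_⟩, fun n hn => ?_⟩
    · rcases Finset.mem_insert.1 hX with rfl | h
      · exact h5
      · exact hAB.left X h
    · rcases Finset.mem_insert.1 hX with rfl | h
      · exact h4 (hAB'.right _ hXB)
      · exact hAB.disj X h hXB
    · exact h3 (hn.1 _ (Finset.mem_insert_self _ _))
  have hfilG : ∀ G : Finset (Set ℕ), (∀ X ∈ G, X ∈ FS SS) → ∀ A B, IsFF (IS SS) A B →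
      ∃ A' B', A ⊆ A' ∧ B ⊆ B' ∧ IsFF (IS SS) A' B' ∧ cell A' B' ⊆ inter G := by
    intro G
    induction G using Finset.induction_on with
    | empty =>
      intro _ A B hAB
      exact ⟨A, B, Finset.Subset.refl _, Finset.Subset.refl _, hAB,
        fun n _ X hX => absurd hX (Finset.notMem_empty _)⟩
    | insert Y G _ ih =>
      intro hG A B hAB
      obtain ⟨A1, B1, h1, h2, h3, h4⟩ := ih (fun X hX => hG X (Finset.mem_insert_of_mem hX)) A B hAB
      obtain ⟨A2, B2, h5, h6, h7, h8⟩ := hfil Y (hG Y (Finset.mem_insert_self _ _)) A1 B1 h3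
      refine ⟨A2, B2, h1.trans h5, h2.trans h6, h7, fun n hn X hX => ?_⟩
      rcases Finset.mem_insert.1 hX with rfl | hX
      · exact h8 hn
      · exact h4 ⟨fun Z hZ => hn.1 Z (h5 hZ), fun Z hZ => hn.2 Z (h6 hZ)⟩ X hX
  have hind : ∀ A B, IsFF (IS SS) A B → (cell A B).Infinite := by
    intro A B hAB
    exact (hgood A B ∅ hAB fun X hX => absurd hX (Finset.notMem_empty _)).mono inter_subset_left
  have hFinf : ∀ Y ∈ FS SS, Y.Infinite := by
    intro Y hY
    refine (hgood ∅ ∅ {Y} ⟨fun X hX => absurd hX (Finset.notMem_empty _),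
      fun X hX => absurd hX (Finset.notMem_empty _), fun X hX => absurd hX (Finset.notMem_empty _)⟩
      fun X hX => by rw [Finset.mem_singleton.1 hX]; exact hY).mono ?_
    rintro n ⟨_, hn⟩
    exact hn Y (Finset.mem_singleton_self _)
  have hcellmono : ∀ {A B A' B' : Finset (Set ℕ)}, A ⊆ A' → B ⊆ B' → cell A' B' ⊆ cell A B :=
    fun h1 h2 n hn => ⟨fun X hX => hn.1 X (h1 hX), fun X hX => hn.2 X (h2 hX)⟩
  have hFF : ∀ γ A B, IsFF (IS (state task γ)) A B → IsFF (IS SS) A B := fun γ A B h =>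
    ⟨fun X hX => hsub γ (h.left X hX), fun X hX => hsub γ (h.right X hX), h.disj⟩
  -- the density filter
  have hdf1 : ∀ Y ∈ FS SS, Y ∈ densityFilter (IS SS) := by
    intro Y hY
    refine ⟨hFinf Y hY, fun A B hAB => ?_⟩
    obtain ⟨A', B', h1, h2, h3, h4⟩ := hfil Y hY A B hAB
    exact ⟨A', B', h1, h2, h3, by rw [diff_eq_empty.2 h4]; exact finite_empty⟩
  have hemptyFF : IsFF (IS SS) ∅ ∅ := ⟨fun X hX => absurd hX (Finset.notMem_empty _),
      fun X hX => absurd hX (Finset.notMem_empty _), fun X hX => absurd hX (Finset.notMem_empty _)⟩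
  have hfill : ∀ γ X, task γ = (0, fun _ => X) → fill (state task γ) X ∈ FS SS := by
    intro γ X hγ
    obtain ⟨h0, _⟩ := (hgs γ).2.2
    rw [hγ] at h0
    have := hitem γ
    rw [h0 rfl] at this
    exact this
  have hdf2 : ∀ X ∈ densityFilter (IS SS), X ∈ FS SS := by
    intro X hX
    obtain ⟨γ, hγt, _, _⟩ := hstage ∅ ∅ ∅ hemptyFF countable_empty (empty_subset _)
      (0, fun _ => X)
    have h1 := hfill γ X hγt
    have h2 : fill (state task γ) X = X := by
      ext n
      constructor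
      · rintro (h | ⟨⟨A, B⟩, ⟨hAB, G, hG, hfin⟩, hn⟩)
        · exact h
        · exfalso
          obtain ⟨A1, B1, h3, h4, h5, h6⟩ := hX.2 A B (hFF γ A B hAB)
          obtain ⟨A2, B2, h7, h8, h9, h10⟩ := hfilG G (fun Y hY => hsub γ (hG Y hY)) A1 B1 h5
          apply hind A2 B2 h9
          refine (h6.union hfin).subset fun m hm => ?_
          have hm1 := hcellmono h7 h8 hm
          by_cases hmX : m ∈ X
          · exact Or.inr ⟨⟨hcellmono h3 h4 hm1, h10 hm⟩, hmX⟩
          · exact Or.inl ⟨hm1, hmX⟩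
      · exact fun h => Or.inl h
    rw [h2] at h1
    exact h1
  refine ⟨IS SS, ⟨fun X hX => ?_, hind⟩, ?_, ?_, ?_⟩
  · -- members of the family are infinite
    refine (hind {X} ∅ ⟨fun Y hY => by rw [Finset.mem_singleton.1 hY]; exact hX,
      fun Y hY => absurd hY (Finset.notMem_empty _), fun Y _ => Finset.notMem_empty _⟩).mono ?_
    intro n hn
    exact hn.1 X (Finset.mem_singleton_self _)
  · -- densely maximal
    intro X _ A B hAB
    obtain ⟨γ, hγt, hAB', _⟩ := hstage A B ∅ hAB countable_empty (empty_subset _) (0, fun _ => X)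
    by_cases hK : ∃ A1 B1, A ⊆ A1 ∧ B ⊆ B1 ∧ (A1, B1) ∈ K (state task γ) X
    · obtain ⟨A1, B1, h1, h2, h3, G, hG, hfin⟩ := hK
      obtain ⟨A2, B2, h4, h5, h6, h7⟩ := hfilG G (fun Y hY => hsub γ (hG Y hY)) A1 B1
        (hFF γ A1 B1 h3)
      refine ⟨A2, B2, h1.trans h4, h2.trans h5, h6, Or.inr (hfin.subset fun m hm => ?_)⟩
      exact ⟨⟨hcellmono h4 h5 hm.1, h7 hm.1⟩, hm.2⟩
    · obtain ⟨A1, B1, h1, h2, h3, h4⟩ := hfil _ (hfill γ X hγt) A B hAB
      refine ⟨A1, B1, h1, h2, h3, Or.inl ?_⟩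
      have h5 : cell A1 B1 \ X = ∅ := by
        rw [eq_empty_iff_forall_notMem]
        rintro m ⟨hm, hmX⟩
        rcases h4 hm with h | ⟨⟨A2, B2⟩, hK2, hm2⟩
        · exact hmX h
        · apply hK
          refine ⟨A ∪ A2, B ∪ B2, Finset.subset_union_left, Finset.subset_union_left,
            ⟨fun Y hY => ?_, fun Y hY => ?_, fun Y hY hY' => ?_⟩, ?_⟩
          · rcases Finset.mem_union.1 hY with h | h
            · exact hAB'.left Y h
            · exact hK2.1.left Y h
          · rcases Finset.mem_union.1 hY with h | h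
            · exact hAB'.right Y h
            · exact hK2.1.right Y h
          · have h6 : m ∈ Y := by
              rcases Finset.mem_union.1 hY with h | h
              · exact hm.1 Y (h1 h)
              · exact hm2.1 Y h
            rcases Finset.mem_union.1 hY' with h | h
            · exact hm.2 Y (h2 h) h6
            · exact hm2.2 Y h h6
          · obtain ⟨G, hG, hfin⟩ := hK2.2
            refine ⟨G, hG, hfin.subset fun k hk => ⟨⟨?_, hk.1.2⟩, hk.2⟩⟩
            exact hcellmono Finset.subset_union_right Finset.subset_union_right hk.1.1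
      rw [h5]
      exact finite_empty
  · -- P-set
    intro A hA
    obtain ⟨γ, hγt, _, hAγ⟩ := hstage ∅ ∅ (range A) hemptyFF (countable_range A) (by
      rintro _ ⟨n, rfl⟩
      exact hdf2 _ (hA n)) (2, A)
    obtain ⟨_, _, h1, _⟩ := (hgs γ).2.2
    rw [hγt] at h1
    obtain ⟨h2, h3⟩ := h1 rfl fun n => hAγ ⟨n, rfl⟩
    refine ⟨(item task γ).2, hdf1 _ ?_, h3⟩
    have h6 : (false, (item task γ).2) = item task γ := by rw [← h2]
    show (false, (item task γ).2) ∈ SS
    rw [h6]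
    exact hitem γ
  · -- Q-set
    intro P hP hP'
    obtain ⟨γ, hγt, _, _⟩ := hstage ∅ ∅ ∅ hemptyFF countable_empty (empty_subset _) (3, P)
    obtain ⟨_, _, _, h1⟩ := (hgs γ).2.2
    rw [hγt] at h1
    obtain ⟨h2, h3⟩ := h1 rfl hP hP'
    refine ⟨(item task γ).2, hdf1 _ ?_, h3⟩
    have h6 : (false, (item task γ).2) = item task γ := by rw [← h2]
    show (false, (item task γ).2) ∈ SS
    rw [h6]
    exact hitem γ

end Pool.Agent.H458R4.Sel
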